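import Mathlib

/-!
# A binomial coefficient modulo p and the forms `x^2+9y^2 = p`, `x^2+9y^2 = 2p`

For a prime `p = 1 mod 4` we prove
`(-1)^[p/12] * C([p/3],[p/12]) = 2x mod p` (`p = x^2+9y^2`, `x = 1 mod 3`) if `p = 1 mod 12` and
`(-1)^[p/12] * C([p/3],[p/12]) = x mod p` (`2p = x^2+9y^2`, `x = 1 mod 3`) if `p = 5 mod 12`.

Outline. Let `s^2 = 3`, `D = 2s-3`, `n = (p-1)/4`.
* A formal residue computation gives `C(2n,n) D^n = C(4f,f)`, respectively
  `-(1+s) C(4f+1,f)`, in characteristic `p = 12f+1`, respectively `12f+5`.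
* The curve `y^2 = x^3+4Dx` carries a point of order three with abscissa `4-2s`; the number of its
  points (for `p = 1 mod 12`), respectively of its points whose Frobenius image is the image under
  an explicit 2-isogeny to the conjugate curve (for `p = 5 mod 12`), is evaluated modulo `p`
  and modulo `3`, the latter by means of the cyclic cubic `X+Y+Z = 6-2s`, `XYZ = 16-8s`.
* The sum of two squares comes from the Jacobsthal sums.
-/

namespace Pool.Agent.Results.MP_d8c653_nt.BinomialForms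

section PartA

open PowerSeries Finset

section Residue

variable {K : Type*} [Field K]

/-- Formal residue lemma: the coefficient of `X^m` in `w^m - X w^(m-1) w'` vanishes. -/
lemma coeff_residue (w : K⟦X⟧) (m : ℕ) (hm : (m : K) ≠ 0) :
    coeff m (w ^ m - X * w ^ (m - 1) * d⁄dX K w) = 0 := by
  have hm0 : m ≠ 0 := by
    rintro rfl
    simp at hm
  have h : (C (m : K)) * (w ^ m - X * w ^ (m - 1) * d⁄dX K w)
      = C (m : K) * w ^ m - X * d⁄dX K (w ^ m) := by
    rw [Derivation.leibniz_pow]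
    simp only [smul_eq_mul, nsmul_eq_mul, map_natCast]
    ring
  have h2 : coeff m (C (m : K) * (w ^ m - X * w ^ (m - 1) * d⁄dX K w)) = 0 := by
    rw [h, map_sub, coeff_C_mul]
    obtain ⟨k, rfl⟩ := Nat.exists_eq_succ_of_ne_zero hm0
    rw [Nat.succ_eq_add_one, coeff_succ_X_mul, coeff_derivative]
    push_cast
    ring
  rw [coeff_C_mul] at h2
  exact (mul_eq_zero.mp h2).resolve_left hm

lemma coeff_main (u w : K⟦X⟧) (huw : u * w = 1) (n : ℕ)
    (hn : ∀ m : ℕ, 0 < m → m ≤ n → (m : K) ≠ 0) (D : K) :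
    coeff n ((1 + C D * X * u) ^ (2 * n) * w ^ (n + 1) * (u + X * d⁄dX K u))
      = (Nat.choose (2 * n) n : K) * D ^ n := by
  have hu' : w * d⁄dX K u = - (u * d⁄dX K w) := by
    have h1 : d⁄dX K (u * w) = 0 := by rw [huw]; simp
    rw [Derivation.leibniz] at h1
    simp only [smul_eq_mul] at h1
    linear_combination h1
  -- the key vanishing
  have key : ∀ m : ℕ, 0 < m → m ≤ n →
      coeff m (w ^ (m + 1) * (u + X * d⁄dX K u)) = 0 := by
    intro m hm hmn
    have h3 : w ^ (m + 1) * (u + X * d⁄dX K u) = w ^ m - X * w ^ (m - 1) * d⁄dX K w := by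
      obtain ⟨k, rfl⟩ := Nat.exists_eq_succ_of_ne_zero hm.ne'
      simp only [Nat.succ_eq_add_one, Nat.add_sub_cancel]
      calc w ^ (k + 1 + 1) * (u + X * d⁄dX K u)
          = w ^ (k + 1) * (u * w) + X * w ^ (k + 1) * (w * d⁄dX K u) := by ring
        _ = w ^ (k + 1) * (u * w) - X * w ^ k * (u * w) * d⁄dX K w := by rw [hu']; ring
        _ = w ^ (k + 1) - X * w ^ k * d⁄dX K w := by rw [huw]; ring
    rw [h3]
    exact coeff_residue w m (hn m hm hmn)
  have key0 : coeff 0 (w ^ (0 + 1) * (u + X * d⁄dX K u)) = 1 := by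
    have h3 : w ^ (0 + 1) * (u + X * d⁄dX K u) = 1 + X * (w * d⁄dX K u) := by
      calc w ^ (0 + 1) * (u + X * d⁄dX K u) = u * w + X * (w * d⁄dX K u) := by ring
        _ = _ := by rw [huw]
    rw [h3]
    simp
  have hexp : (1 + C D * X * u) ^ (2 * n) * w ^ (n + 1) * (u + X * d⁄dX K u)
      = ∑ k ∈ range (2 * n + 1),
        X ^ k * (C ((Nat.choose (2 * n) k : K) * D ^ k) *
          (u ^ k * w ^ (n + 1) * (u + X * d⁄dX K u))) := by
    rw [add_comm, add_pow, Finset.sum_mul, Finset.sum_mul]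
    refine Finset.sum_congr rfl fun k _ => ?_
    simp only [one_pow, mul_pow, map_mul, map_pow, map_natCast]
    ring
  rw [hexp, map_sum, Finset.sum_eq_single n]
  · rw [coeff_X_pow_mul', if_pos le_rfl, Nat.sub_self, coeff_C_mul]
    have : u ^ n * w ^ (n + 1) * (u + X * d⁄dX K u)
        = w ^ (0 + 1) * (u + X * d⁄dX K u) := by
      calc u ^ n * w ^ (n + 1) * (u + X * d⁄dX K u)
          = (u * w) ^ n * (w ^ (0 + 1) * (u + X * d⁄dX K u)) := by ring
        _ = _ := by rw [huw]; ring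
    rw [this, key0, mul_one]
  · intro k _ hkn
    rw [coeff_X_pow_mul']
    split_ifs with h
    · rw [coeff_C_mul]
      have hlt : k < n := lt_of_le_of_ne h hkn
      have : u ^ k * w ^ (n + 1) * (u + X * d⁄dX K u)
          = w ^ (n - k + 1) * (u + X * d⁄dX K u) := by
        have hk : n + 1 = k + (n - k + 1) := by omega
        rw [hk, pow_add]
        calc u ^ k * (w ^ k * w ^ (n - k + 1)) * (u + X * d⁄dX K u)
            = (u * w) ^ k * (w ^ (n - k + 1) * (u + X * d⁄dX K u)) := by ring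
          _ = _ := by rw [huw]; ring
      rw [this, key (n - k) (by omega) (by omega), mul_zero]
    · rfl
  · intro h
    simp at h
    omega

/-- Coefficients of `(1 - X^3)^N`. -/
lemma coeff_one_sub_X3_pow (N k i : ℕ) (hi : i < 3) :
    coeff (3 * k + i) ((1 - X ^ 3 : K⟦X⟧) ^ N)
      = if i = 0 then (-1) ^ k * (Nat.choose N k : K) else 0 := by
  rw [show (1 - X ^ 3 : K⟦X⟧) = -X ^ 3 + 1 by ring, add_pow, map_sum]
  have h : ∀ m ∈ range (N + 1), coeff (3 * k + i) ((-X ^ 3 : K⟦X⟧) ^ m * 1 ^ (N - m) * (Nat.choose N m : K⟦X⟧))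
      = if 3 * k + i = 3 * m then (-1) ^ m * (Nat.choose N m : K) else 0 := by
    intro m _
    have : (-X ^ 3 : K⟦X⟧) ^ m * 1 ^ (N - m) * (Nat.choose N m : K⟦X⟧)
        = C ((-1) ^ m * (Nat.choose N m : K)) * X ^ (3 * m) := by
      rw [neg_pow, ← pow_mul]
      simp only [one_pow, map_mul, map_pow, map_neg, map_one, map_natCast]
      ring
    rw [this, coeff_C_mul, coeff_X_pow]
    split_ifs <;> simp
  rw [Finset.sum_congr rfl h]
  split_ifs with hi0
  · subst hi0
    rw [Finset.sum_ite, Finset.sum_const_zero, add_zero]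
    by_cases hk : k ≤ N
    · have : (range (N + 1)).filter (fun m => 3 * k + 0 = 3 * m) = {k} := by
        ext m
        simp only [mem_filter, mem_range, mem_singleton]
        omega
      rw [this, sum_singleton]
    · have : (range (N + 1)).filter (fun m => 3 * k + 0 = 3 * m) = ∅ := by
        apply Finset.filter_eq_empty_iff.mpr
        intro m hm
        rw [mem_range] at hm
        omega
      rw [this, sum_empty, Nat.choose_eq_zero_of_lt (by omega)]
      simp
  · apply Finset.sum_eq_zero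
    intro m _
    rw [if_neg]
    omega

/-- The power series identity behind the evaluation. -/
lemma coeff_identity (p n : ℕ) [Fact p.Prime] [CharP K p] (hp : p = 4 * n + 1)
    (s : K) (hs : s ^ 2 = 3) :
    (Nat.choose (2 * n) n : K) * (2 * s - 3) ^ n
      = coeff n ((1 - C (1 + s) * X) * (1 - X ^ 3 : K⟦X⟧) ^ (3 * n)) := by
  have hn : ∀ m : ℕ, 0 < m → m ≤ n → (m : K) ≠ 0 := by
    intro m hm hmn h
    rw [CharP.cast_eq_zero_iff K p] at h
    have := Nat.le_of_dvd hm h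
    omega
  set q : K⟦X⟧ := 1 + X + X ^ 2 with hq
  set e : K⟦X⟧ := 1 - X with he
  have hq1 : q * q⁻¹ = 1 := PowerSeries.mul_inv_cancel q (by simp [hq])
  have he1 : e * e⁻¹ = 1 := PowerSeries.mul_inv_cancel e (by simp [he])
  set u : K⟦X⟧ := e * q⁻¹ with hu
  set w : K⟦X⟧ := q * e⁻¹ with hw
  have huw : u * w = 1 := by
    calc u * w = (e * e⁻¹) * (q * q⁻¹) := by rw [hu, hw]; ring
      _ = 1 := by rw [hq1, he1, one_mul]
  have huq : u * q = e := by
    calc u * q = e * (q * q⁻¹) := by rw [hu]; ring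
      _ = e := by rw [hq1, mul_one]
  have hwe : w * e = q := by
    calc w * e = q * (e * e⁻¹) := by rw [hw]; ring
      _ = q := by rw [he1, mul_one]
  have hq0 : q ≠ 0 := by
    intro h
    rw [h, zero_mul] at hq1
    exact zero_ne_one hq1
  have hmain := coeff_main u w huw n hn (2 * s - 3)
  rw [← hmain]
  have hC : (C s : K⟦X⟧) ^ 2 = 3 := by rw [← map_pow, hs]; exact map_ofNat _ _
  have hsub1 : (1 + C (2 * s - 3) * X * u) * q = (1 - C (1 - s) * X) ^ 2 := by
    calc (1 + C (2 * s - 3) * X * u) * q = q + C (2 * s - 3) * X * (u * q) := by ring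
      _ = q + C (2 * s - 3) * X * e := by rw [huq]
      _ = (1 - C (1 - s) * X) ^ 2 := by
        simp only [hq, he, map_sub, map_mul, map_one, map_ofNat]
        linear_combination (-X ^ 2 : K⟦X⟧) * hC
  have hdq : d⁄dX K q = 1 + 2 * X := by
    simp only [hq, map_add]
    rw [Derivation.leibniz_pow]
    simp
  have hde : d⁄dX K e = -1 := by
    simp [he]
  have hsub2 : (u + X * d⁄dX K u) * q ^ 2 = (1 - C (1 - s) * X) * (1 - C (1 + s) * X) := by
    have h1 : d⁄dX K (u * q) = d⁄dX K e := by rw [huq]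
    rw [Derivation.leibniz, hdq, hde] at h1
    simp only [smul_eq_mul] at h1
    have h2 : (u + X * d⁄dX K u) * q ^ 2 = e * q + X * (-q - e * (1 + 2 * X)) := by
      calc (u + X * d⁄dX K u) * q ^ 2
          = (u * q) * q + X * (q * (u * (1 + 2 * X) + q * d⁄dX K u) - (u * q) * (1 + 2 * X)) := by
            ring
        _ = e * q + X * (-q - e * (1 + 2 * X)) := by
            rw [h1, huq]; ring
    rw [h2]
    simp only [hq, he, map_sub, map_add, map_one]
    linear_combination (X ^ 2 : K⟦X⟧) * hC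
  set P : K⟦X⟧ := (1 + C (2 * s - 3) * X * u) ^ (2 * n) * w ^ (n + 1) * (u + X * d⁄dX K u) with hP
  have hPq : P * (q * e) ^ (n + 1)
      = (1 - C (1 - s) * X) ^ (4 * n + 1) * (1 - C (1 + s) * X) := by
    have h1 : (P * (q * e) ^ (n + 1)) * q ^ (n + 1)
        = ((1 - C (1 - s) * X) ^ (4 * n + 1) * (1 - C (1 + s) * X)) * q ^ (n + 1) := by
      calc (P * (q * e) ^ (n + 1)) * q ^ (n + 1)
          = ((1 + C (2 * s - 3) * X * u) * q) ^ (2 * n) * (w * e) ^ (n + 1)
              * ((u + X * d⁄dX K u) * q ^ 2) := by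
            rw [hP]
            generalize (1 + C (2 * s - 3) * X * u) = A
            generalize (u + X * d⁄dX K u) = B
            ring_nf
        _ = ((1 - C (1 - s) * X) ^ (4 * n + 1) * (1 - C (1 + s) * X)) * q ^ (n + 1) := by
            rw [hsub1, hwe, hsub2]
            generalize (1 - C (1 - s) * X) = A
            generalize (1 - C (1 + s) * X) = B
            ring_nf
    exact mul_right_cancel₀ (pow_ne_zero _ hq0) h1
  have hqe : q * e = 1 - X ^ 3 := by rw [hq, he]; ring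
  have : CharP K⟦X⟧ p :=
    charP_of_injective_ringHom (f := (C : K →+* K⟦X⟧)) PowerSeries.C_injective p
  have hF : P * (1 - X ^ (3 * p))
      = (1 - C ((1 - s) ^ p) * X ^ p) * ((1 - C (1 + s) * X) * (1 - X ^ 3 : K⟦X⟧) ^ (3 * n)) := by
    have h1 : (1 - X ^ 3 : K⟦X⟧) ^ p = 1 - X ^ (3 * p) := by
      rw [sub_pow_char, one_pow, ← pow_mul]
    have h2 : (1 - C (1 - s) * X : K⟦X⟧) ^ p = 1 - C ((1 - s) ^ p) * X ^ p := by
      rw [sub_pow_char, one_pow, mul_pow, map_pow]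
    rw [← h1, ← h2]
    have h3 : (1 - X ^ 3 : K⟦X⟧) ^ p = (q * e) ^ (n + 1) * (1 - X ^ 3) ^ (3 * n) := by
      rw [hqe, ← pow_add]; congr 1; omega
    rw [h3, ← mul_assoc, hPq, hp]
    ring
  have hL : coeff n (P * (1 - X ^ (3 * p))) = coeff n P := by
    rw [mul_sub, mul_one, map_sub, coeff_mul_X_pow', if_neg (by omega), sub_zero]
  have hR : ∀ G : K⟦X⟧, coeff n ((1 - C ((1 - s) ^ p) * X ^ p) * G) = coeff n G := by
    intro G
    have : (1 - C ((1 - s) ^ p) * X ^ p) * G = G - (C ((1 - s) ^ p) * G) * X ^ p := by ring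
    rw [this, map_sub, coeff_mul_X_pow', if_neg (by omega), sub_zero]
  rw [← hL, hF, hR]


/-- `(-1)^f C(3n,f) = C(n+f,f)` in characteristic `4n+1`. -/
lemma choose_reflect (p n : ℕ) [Fact p.Prime] [CharP K p] (hp : p = 4 * n + 1) (f : ℕ)
    (hf : f ≤ 3 * n) :
    (-1 : K) ^ f * (Nat.choose (3 * n) f : K) = (Nat.choose (n + f) f : K) := by
  induction f with
  | zero => simp
  | succ f ih =>
    have ih' := ih (by omega)
    have hne : ((f + 1 : ℕ) : K) ≠ 0 := by
      intro h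
      rw [CharP.cast_eq_zero_iff K p] at h
      have := Nat.le_of_dvd (Nat.succ_pos f) h
      omega
    have hp0 : ((4 * n + 1 : ℕ) : K) = 0 := by rw [← hp]; exact CharP.cast_eq_zero K p
    have h1 : (Nat.choose (3 * n) (f + 1) : K) * ((f + 1 : ℕ) : K)
        = (Nat.choose (3 * n) f : K) * ((3 * n - f : ℕ) : K) := by
      exact_mod_cast congrArg (Nat.cast : ℕ → K) (Nat.choose_succ_right_eq (3 * n) f)
    have h2 : ((n + f + 1 : ℕ) : K) * (Nat.choose (n + f) f : K)
        = (Nat.choose (n + (f + 1)) (f + 1) : K) * ((f + 1 : ℕ) : K) := by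
      exact_mod_cast congrArg (Nat.cast : ℕ → K) (Nat.add_one_mul_choose_eq (n + f) f)
    have h3 : ((3 * n - f : ℕ) : K) = - ((n + f + 1 : ℕ) : K) := by
      rw [Nat.cast_sub (by omega)]
      push_cast at hp0 ⊢
      linear_combination hp0
    apply mul_right_cancel₀ hne
    rw [← h2, mul_assoc, h1, h3, ← ih']
    ring

lemma identityA (p f : ℕ) [Fact p.Prime] [CharP K p] (hp : p = 12 * f + 1)
    (s : K) (hs : s ^ 2 = 3) :
    (Nat.choose (6 * f) (3 * f) : K) * (2 * s - 3) ^ (3 * f) = (Nat.choose (4 * f) f : K) := by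
  have h := coeff_identity p (3 * f) (by omega) s hs
  have h1 : (1 - C (1 + s) * X) * (1 - X ^ 3 : K⟦X⟧) ^ (3 * (3 * f))
      = (1 - X ^ 3 : K⟦X⟧) ^ (3 * (3 * f)) - (C (1 + s) * (1 - X ^ 3 : K⟦X⟧) ^ (3 * (3 * f))) * X := by
    ring
  rw [h1, map_sub] at h
  have h2 := coeff_one_sub_X3_pow (K := K) (3 * (3 * f)) f 0 (by omega)
  rw [add_zero, if_pos rfl] at h2
  rw [h2, choose_reflect p (3 * f) (by omega) f (by omega)] at h
  have h3 : coeff (3 * f) ((C (1 + s) * (1 - X ^ 3 : K⟦X⟧) ^ (3 * (3 * f))) * X) = 0 := by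
    rcases Nat.eq_zero_or_pos f with rfl | hf
    · simp
    · obtain ⟨g, rfl⟩ := Nat.exists_eq_succ_of_ne_zero hf.ne'
      have : 3 * (g.succ) = (3 * g + 2) + 1 := by omega
      rw [this, coeff_succ_mul_X, coeff_C_mul, coeff_one_sub_X3_pow _ g 2 (by omega)]
      simp
  rw [h3, sub_zero] at h
  have e1 : 2 * (3 * f) = 6 * f := by ring
  have e2 : 3 * f + f = 4 * f := by ring
  rw [e1, e2] at h
  exact h

lemma identityB (p f : ℕ) [Fact p.Prime] [CharP K p] (hp : p = 12 * f + 5)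
    (s : K) (hs : s ^ 2 = 3) :
    (Nat.choose (6 * f + 2) (3 * f + 1) : K) * (2 * s - 3) ^ (3 * f + 1)
      = - (1 + s) * (Nat.choose (4 * f + 1) f : K) := by
  have h := coeff_identity p (3 * f + 1) (by omega) s hs
  have h1 : (1 - C (1 + s) * X) * (1 - X ^ 3 : K⟦X⟧) ^ (3 * (3 * f + 1))
      = (1 - X ^ 3 : K⟦X⟧) ^ (3 * (3 * f + 1))
        - (C (1 + s) * (1 - X ^ 3 : K⟦X⟧) ^ (3 * (3 * f + 1))) * X := by
    ring
  rw [h1, map_sub] at h
  have h2 := coeff_one_sub_X3_pow (K := K) (3 * (3 * f + 1)) f 1 (by omega)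
  rw [if_neg (by omega)] at h2
  have h3 := coeff_one_sub_X3_pow (K := K) (3 * (3 * f + 1)) f 0 (by omega)
  rw [add_zero, if_pos rfl] at h3
  rw [h2, coeff_succ_mul_X, coeff_C_mul, h3,
    choose_reflect p (3 * f + 1) (by omega) f (by omega)] at h
  have e1 : 2 * (3 * f + 1) = 6 * f + 2 := by ring
  have e2 : 3 * f + 1 + f = 4 * f + 1 := by ring
  rw [e1, e2] at h
  rw [h]
  ring

end Residue

end PartA

open Finset

set_option linter.unusedSectionVars false

section Jacobsthal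

variable {p : ℕ} [Fact p.Prime]

/-- Jacobsthal sum. -/
def jS (k : ZMod p) : ℤ := ∑ x : ZMod p, quadraticChar (ZMod p) (x ^ 3 + k * x)

lemma ringChar_ne_two (hp2 : p ≠ 2) : ringChar (ZMod p) ≠ 2 := by
  rw [ZMod.ringChar_zmod_n]; exact hp2

lemma qc_sum_shift (hp2 : p ≠ 2) (c : ZMod p) (hc : c ≠ 0) :
    ∑ k : ZMod p, quadraticChar (ZMod p) (k * (k + c)) = -1 := by
  have h1 : ∀ k : ZMod p, quadraticChar (ZMod p) (k * (k + c))
      = quadraticChar (ZMod p) (1 + c * k⁻¹) - (if k = 0 then 1 else 0) := by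
    intro k
    by_cases hk : k = 0
    · subst hk; simp
    · rw [if_neg hk, sub_zero]
      have : k * (k + c) = k ^ 2 * (1 + c * k⁻¹) := by field_simp
      rw [this, map_mul, map_pow, quadraticChar_sq_one hk, one_mul]
  rw [Finset.sum_congr rfl (fun k _ => h1 k), Finset.sum_sub_distrib]
  have h2 : ∑ k : ZMod p, quadraticChar (ZMod p) (1 + c * k⁻¹)
      = ∑ t : ZMod p, quadraticChar (ZMod p) t := by
    let e : ZMod p ≃ ZMod p := (inv_involutive (G := ZMod p)).toPerm.trans ((Equiv.mulLeft₀ c hc).trans (Equiv.addLeft 1))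
    exact Equiv.sum_comp e (fun t => quadraticChar (ZMod p) t)
  rw [h2, quadraticChar_sum_zero (ringChar_ne_two hp2)]
  simp

lemma qc_sum_two (hp2 : p ≠ 2) (a b : ZMod p) :
    ∑ k : ZMod p, quadraticChar (ZMod p) ((k + a) * (k + b))
      = (p : ℤ) * (if a = b then 1 else 0) - 1 := by
  by_cases hab : a = b
  · subst hab
    rw [if_pos rfl]
    have h1 : ∀ k : ZMod p, quadraticChar (ZMod p) ((k + a) * (k + a))
        = 1 - (if k = -a then 1 else 0) := by
      intro k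
      by_cases hk : k = -a
      · subst hk; simp
      · rw [if_neg hk, sub_zero, ← sq, map_pow, quadraticChar_sq_one]
        intro h; exact hk (eq_neg_of_add_eq_zero_left h)
    rw [Finset.sum_congr rfl (fun k _ => h1 k), Finset.sum_sub_distrib]
    simp [ZMod.card]
  · rw [if_neg hab, mul_zero, zero_sub]
    have := qc_sum_shift hp2 (b - a) (sub_ne_zero.mpr (Ne.symm hab))
    rw [← this]
    exact (Equiv.sum_comp (Equiv.addRight a) (fun k => quadraticChar (ZMod p) (k * (k + (b - a))))).symm ▸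
      (by
        apply Finset.sum_congr rfl
        intro k _
        congr 1
        simp)

lemma qc_neg_one (hp4 : p % 4 = 1) : quadraticChar (ZMod p) (-1) = 1 := by
  have hp2 : p ≠ 2 := by omega
  rw [quadraticChar_neg_one (ringChar_ne_two hp2), ZMod.card]
  exact ZMod.χ₄_nat_one_mod_four hp4

lemma sum_jS_sq (hp4 : p % 4 = 1) : ∑ k : ZMod p, (jS k) ^ 2 = 2 * p * (p - 1) := by
  have hp2 : p ≠ 2 := by omega
  have h1 : ∀ k : ZMod p, (jS k) ^ 2 = ∑ x : ZMod p, ∑ y : ZMod p,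
      quadraticChar (ZMod p) (x * y) * quadraticChar (ZMod p) ((k + x ^ 2) * (k + y ^ 2)) := by
    intro k
    rw [sq, jS, Finset.sum_mul_sum]
    refine Finset.sum_congr rfl fun x _ => Finset.sum_congr rfl fun y _ => ?_
    rw [← map_mul, ← map_mul]
    congr 1
    ring
  rw [Finset.sum_congr rfl (fun k _ => h1 k)]
  rw [Finset.sum_comm]
  have h2 : ∀ x : ZMod p, ∑ k : ZMod p, ∑ y : ZMod p,
      quadraticChar (ZMod p) (x * y) * quadraticChar (ZMod p) ((k + x ^ 2) * (k + y ^ 2))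
      = p * (2 * (if x = 0 then 0 else 1)) - quadraticChar (ZMod p) x * ∑ y : ZMod p, quadraticChar (ZMod p) y := by
    intro x
    rw [Finset.sum_comm]
    have h3 : ∀ y : ZMod p, ∑ k : ZMod p,
        quadraticChar (ZMod p) (x * y) * quadraticChar (ZMod p) ((k + x ^ 2) * (k + y ^ 2))
        = p * (quadraticChar (ZMod p) (x * y) * (if x ^ 2 = y ^ 2 then 1 else 0))
          - quadraticChar (ZMod p) x * quadraticChar (ZMod p) y := by
      intro y
      rw [← Finset.mul_sum, qc_sum_two hp2, map_mul]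
      ring
    rw [Finset.sum_congr rfl (fun y _ => h3 y), Finset.sum_sub_distrib, ← Finset.mul_sum,
      ← Finset.mul_sum]
    congr 2
    by_cases hx : x = 0
    · subst hx; simp
    · rw [if_neg hx]
      have h4 : ∀ y : ZMod p, quadraticChar (ZMod p) (x * y) * (if x ^ 2 = y ^ 2 then 1 else 0)
          = (if y = x then 1 else 0) + (if y = -x then 1 else 0) := by
        intro y
        have hxx : x ≠ -x := by
          intro h
          have h2x : (2 : ZMod p) * x = 0 := by linear_combination h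
          rcases mul_eq_zero.mp h2x with h | h
          · have : ((2 : ℕ) : ZMod p) = 0 := by exact_mod_cast h
            rw [ZMod.natCast_eq_zero_iff] at this
            have := Nat.le_of_dvd (by norm_num) this
            have hpp : p.Prime := Fact.out
            have := hpp.two_le
            omega
          · exact hx h
        by_cases hy1 : y = x
        · subst hy1
          rw [if_pos rfl, if_pos rfl, if_neg hxx, ← sq, map_pow, quadraticChar_sq_one hx]
          norm_num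
        · by_cases hy2 : y = -x
          · subst hy2
            rw [if_pos (by ring), if_neg hy1, if_pos rfl]
            have : x * -x = (-1) * x ^ 2 := by ring
            rw [this, map_mul, map_pow, quadraticChar_sq_one hx, qc_neg_one hp4]
            norm_num
          · rw [if_neg hy1, if_neg hy2, if_neg, mul_zero, add_zero]
            intro h
            rcases sq_eq_sq_iff_eq_or_eq_neg.mp h with h | h
            · exact hy1 h.symm
            · exact hy2 (by rw [h, neg_neg])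
      rw [Finset.sum_congr rfl (fun y _ => h4 y), Finset.sum_add_distrib]
      simp
  rw [Finset.sum_congr rfl (fun x _ => h2 x), quadraticChar_sum_zero (ringChar_ne_two hp2)]
  simp only [mul_zero, sub_zero]
  have h5 : ∀ x : ZMod p, (p : ℤ) * (2 * (if x = 0 then 0 else 1))
      = 2 * p - 2 * p * (if x = 0 then 1 else 0) := by
    intro x
    split_ifs <;> ring
  rw [Finset.sum_congr rfl (fun x _ => h5 x), Finset.sum_sub_distrib, ← Finset.mul_sum]
  simp [ZMod.card]
  ring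

lemma jS_mul_sq (k t : ZMod p) (ht : t ≠ 0) :
    jS (k * t ^ 2) = quadraticChar (ZMod p) t * jS k := by
  unfold jS
  rw [← Equiv.sum_comp (Equiv.mulLeft₀ t ht)
    (fun x => quadraticChar (ZMod p) (x ^ 3 + k * t ^ 2 * x)), Finset.mul_sum]
  refine Finset.sum_congr rfl fun x _ => ?_
  have : (Equiv.mulLeft₀ t ht) x = t * x := rfl
  rw [this]
  have h2 : (t * x) ^ 3 + k * t ^ 2 * (t * x) = t ^ 2 * (t * (x ^ 3 + k * x)) := by ring
  rw [h2, map_mul, map_mul, map_pow, quadraticChar_sq_one ht, one_mul]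

lemma jS_mul_sq_sq (k t : ZMod p) (ht : t ≠ 0) : jS (k * t ^ 2) ^ 2 = jS k ^ 2 := by
  rw [jS_mul_sq k t ht, mul_pow, quadraticChar_sq_one ht, one_mul]

lemma jS_zero (hp2 : p ≠ 2) : jS (0 : ZMod p) = 0 := by
  unfold jS
  have : ∀ x : ZMod p, quadraticChar (ZMod p) (x ^ 3 + 0 * x) = quadraticChar (ZMod p) x := by
    intro x
    by_cases hx : x = 0
    · subst hx; simp
    · have : x ^ 3 + 0 * x = x ^ 2 * x := by ring
      rw [this, map_mul, map_pow, quadraticChar_sq_one hx, one_mul]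
  rw [Finset.sum_congr rfl (fun x _ => this x)]
  exact quadraticChar_sum_zero (ringChar_ne_two hp2)

lemma jacobsthal (hp4 : p % 4 = 1) (k : ZMod p) (hk : k ≠ 0) :
    ∃ A B : ℤ, jS k = 2 * A ∧ A ^ 2 + B ^ 2 = p := by
  have hp2 : p ≠ 2 := by omega
  obtain ⟨g', hg'⟩ := quadraticChar_exists_neg_one' (F := ZMod p) (ringChar_ne_two hp2)
  obtain ⟨g, hg, hg0⟩ : ∃ g : ZMod p, quadraticChar (ZMod p) g = -1 ∧ g ≠ 0 :=
    ⟨(g' : ZMod p), hg', g'.ne_zero⟩
  have hterm : ∀ j : ZMod p, 2 * jS j ^ 2 = (jS k ^ 2 + jS (k * g) ^ 2) * (1 - if j = 0 then 1 else 0)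
      + quadraticChar (ZMod p) j * (quadraticChar (ZMod p) k * (jS k ^ 2 - jS (k * g) ^ 2)) := by
    intro j
    by_cases hj : j = 0
    · subst hj
      rw [jS_zero hp2]
      simp
    · rw [if_neg hj, sub_zero, mul_one]
      rcases quadraticChar_dichotomy (mul_ne_zero hj hk) with h | h
      · rw [quadraticChar_one_iff_isSquare (mul_ne_zero hj hk)] at h
        obtain ⟨v, hv⟩ := h
        have hv0 : v ≠ 0 := by
          rintro rfl
          rw [mul_zero] at hv
          exact mul_ne_zero hj hk hv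
        have hjk : j = k * (v / k) ^ 2 := by
          field_simp
          rw [sq, ← hv]
        have h1 : jS j ^ 2 = jS k ^ 2 := by
          conv_lhs => rw [hjk]
          exact jS_mul_sq_sq k (v / k) (div_ne_zero hv0 hk)
        have h2 : quadraticChar (ZMod p) j * quadraticChar (ZMod p) k = 1 := by
          rw [← map_mul, hv, ← sq, map_pow, quadraticChar_sq_one hv0]
        rw [h1]
        linear_combination (-(jS k ^ 2 - jS (k * g) ^ 2)) * h2
      · have h3 : quadraticChar (ZMod p) (j * k * g) = 1 := by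
          rw [map_mul, h, hg]; norm_num
        rw [quadraticChar_one_iff_isSquare (mul_ne_zero (mul_ne_zero hj hk) hg0)] at h3
        obtain ⟨v, hv⟩ := h3
        have hv0 : v ≠ 0 := by
          rintro rfl
          rw [mul_zero] at hv
          exact mul_ne_zero (mul_ne_zero hj hk) hg0 hv
        have hjk : j = (k * g) * (v / (k * g)) ^ 2 := by
          field_simp
          rw [sq, ← hv]
        have h1 : jS j ^ 2 = jS (k * g) ^ 2 := by
          conv_lhs => rw [hjk]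
          exact jS_mul_sq_sq (k * g) _ (div_ne_zero hv0 (mul_ne_zero hk hg0))
        have h2 : quadraticChar (ZMod p) j * quadraticChar (ZMod p) k = -1 := by
          rw [← map_mul, h]
        rw [h1]
        linear_combination (-(jS k ^ 2 - jS (k * g) ^ 2)) * h2
  have hsum : 2 * (∑ j : ZMod p, jS j ^ 2) = (jS k ^ 2 + jS (k * g) ^ 2) * (p - 1) := by
    rw [Finset.mul_sum, Finset.sum_congr rfl (fun j _ => hterm j), Finset.sum_add_distrib,
      ← Finset.mul_sum, ← Finset.sum_mul, quadraticChar_sum_zero (ringChar_ne_two hp2),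
      Finset.sum_sub_distrib]
    simp [ZMod.card]
  rw [sum_jS_sq hp4] at hsum
  have hpp : p.Prime := Fact.out
  have hp1 : (p : ℤ) - 1 ≠ 0 := by
    have := hpp.two_le
    have : (2 : ℤ) ≤ p := by exact_mod_cast this
    omega
  have h4p : jS k ^ 2 + jS (k * g) ^ 2 = 4 * p := by
    apply mul_right_cancel₀ hp1
    rw [← hsum]; ring
  generalize jS (k * g) = b at h4p
  generalize jS k = a at h4p
  have hmod : (a ^ 2 + b ^ 2) % 4 = 0 := by rw [h4p]; omega
  have ha : a % 2 = 0 := by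
    rcases Int.emod_two_eq_zero_or_one a with h | h
    · exact h
    · exfalso
      obtain ⟨a', rfl⟩ : ∃ a', a = 2 * a' + 1 := ⟨a / 2, by omega⟩
      rcases Int.emod_two_eq_zero_or_one b with h' | h'
      · obtain ⟨b', rfl⟩ : ∃ b', b = 2 * b' := ⟨b / 2, by omega⟩
        ring_nf at hmod
        omega
      · obtain ⟨b', rfl⟩ : ∃ b', b = 2 * b' + 1 := ⟨b / 2, by omega⟩
        ring_nf at hmod
        omega
  have hb : b % 2 = 0 := by
    obtain ⟨a', rfl⟩ : ∃ a', a = 2 * a' := ⟨a / 2, by omega⟩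
    rcases Int.emod_two_eq_zero_or_one b with h | h
    · exact h
    · exfalso
      obtain ⟨b', rfl⟩ : ∃ b', b = 2 * b' + 1 := ⟨b / 2, by omega⟩
      ring_nf at hmod
      omega
  obtain ⟨a', rfl⟩ : ∃ a', a = 2 * a' := ⟨a / 2, by omega⟩
  obtain ⟨b', rfl⟩ : ∃ b', b = 2 * b' := ⟨b / 2, by omega⟩
  exact ⟨a', b', rfl, by linarith [h4p, (by ring : (2 * a') ^ 2 + (2 * b') ^ 2 = 4 * (a' ^ 2 + b' ^ 2))]⟩

/-- The Jacobsthal sum modulo `p`. -/
lemma jS_mod (n : ℕ) (hp : p = 4 * n + 1) (k : ZMod p) :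
    ((jS k : ℤ) : ZMod p) = - ((Nat.choose (2 * n) n : ZMod p) * k ^ n) := by
  have hp2 : p ≠ 2 := by omega
  have hpp : p.Prime := Fact.out
  have hn : 0 < n := by
    rcases Nat.eq_zero_or_pos n with h | h
    · subst h; simp at hp; subst hp; exact absurd hpp (by norm_num)
    · exact h
  unfold jS
  push_cast
  have h1 : ∀ x : ZMod p, ((quadraticChar (ZMod p) (x ^ 3 + k * x) : ℤ) : ZMod p)
      = ∑ j ∈ range (2 * n + 1), (Nat.choose (2 * n) j : ZMod p) * k ^ (2 * n - j) * x ^ (2 * n + 2 * j) := by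
    intro x
    rw [quadraticChar_eq_pow_of_char_ne_two' (ringChar_ne_two hp2), ZMod.card]
    have : p / 2 = 2 * n := by omega
    rw [this, add_pow]
    refine Finset.sum_congr rfl fun j hj => ?_
    rw [mem_range] at hj
    rw [mul_pow, ← pow_mul]
    have e : 2 * n + 2 * j = 3 * j + (2 * n - j) := by omega
    rw [e, pow_add]
    ring
  rw [Finset.sum_congr rfl (fun x _ => h1 x), Finset.sum_comm]
  have h2 : ∀ j ∈ range (2 * n + 1), ∑ x : ZMod p,
      (Nat.choose (2 * n) j : ZMod p) * k ^ (2 * n - j) * x ^ (2 * n + 2 * j)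
      = if j = n then - ((Nat.choose (2 * n) n : ZMod p) * k ^ n) else 0 := by
    intro j hj
    rw [mem_range] at hj
    rw [← Finset.mul_sum]
    have hs : ∑ x : ZMod p, x ^ (2 * n + 2 * j) = if j = n then -1 else 0 := by
      have hs1 : ∑ x : ZMod p, x ^ (2 * n + 2 * j) = ∑ x : (ZMod p)ˣ, ((x : ZMod p) ^ (2 * n + 2 * j)) := by
        symm
        rw [← Finset.sum_sdiff (Finset.subset_univ ({0} : Finset (ZMod p)))]
        rw [Finset.sum_singleton, zero_pow (by omega), add_zero]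
        apply Finset.sum_bij (fun (x : (ZMod p)ˣ) _ => (x : ZMod p))
        · intro x _; simp
        · intro a _ b _ h; exact Units.ext h
        · intro b hb
          simp only [mem_sdiff, mem_univ, mem_singleton, true_and] at hb
          exact ⟨Units.mk0 b hb, mem_univ _, rfl⟩
        · intro x _; rfl
      rw [hs1, FiniteField.sum_pow_units, ZMod.card]
      have hiff : p - 1 ∣ 2 * n + 2 * j ↔ j = n := by
        constructor
        · rintro ⟨c, hc⟩
          have hc' : 2 * n + 2 * j = 4 * n * c := by rw [hc, hp]; simp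
          have hc1 : c ≠ 0 := by rintro rfl; omega
          have hc2 : c < 2 := by
            by_contra hcon
            have : 2 ≤ c := by omega
            have : 4 * n * 2 ≤ 4 * n * c := Nat.mul_le_mul_left _ this
            omega
          have : c = 1 := by omega
          subst this
          omega
        · rintro rfl
          exact ⟨1, by omega⟩
      simp only [hiff]
    rw [hs]
    split_ifs with h
    · subst h
      have : 2 * j - j = j := by omega
      rw [this]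
      ring
    · simp
  rw [Finset.sum_congr rfl h2, Finset.sum_ite_eq' (range (2 * n + 1)) n]
  rw [if_pos (by rw [mem_range]; omega)]

end Jacobsthal

/-- A finite set of triples closed under cyclic rotation and without constant triples has
cardinality divisible by three. -/
lemma three_dvd_card_of_cyclic {α : Type*} [DecidableEq α] (T : Finset (α × α × α))
    (h : ∀ a b c, (a, b, c) ∈ T → (b, c, a) ∈ T) (h0 : ∀ a, (a, a, a) ∉ T) : 3 ∣ T.card := by
  let f : Function.End T := fun t => ⟨(t.1.2.1, t.1.2.2, t.1.1), h _ _ _ t.2⟩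
  have hf : f ^ 3 ^ 1 = 1 := by
    funext t
    rw [pow_one]
    rfl
  have : Fact (Nat.Prime 3) := ⟨by norm_num⟩
  have hcard := Equiv.Perm.card_fixedPoints_modEq hf
  have hfix : Fintype.card (Function.fixedPoints f) = 0 := by
    rw [Fintype.card_eq_zero_iff]
    constructor
    rintro ⟨⟨⟨a, b, c⟩, hT⟩, hfp⟩
    have h1 : f ⟨(a, b, c), hT⟩ = ⟨(a, b, c), hT⟩ := hfp
    have h2 : (b, c, a) = (a, b, c) := congrArg Subtype.val h1
    simp only [Prod.mk.injEq] at h2
    obtain ⟨rfl, rfl, _⟩ := h2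
    exact h0 _ hT
  rw [hfix, Fintype.card_coe] at hcard
  exact (Nat.modEq_zero_iff_dvd).mp hcard

section Curve

variable {K : Type*} [Field K]

/-- From the Weierstrass curve to the cyclic cubic. -/
def toT (s : K) (v : K × K) : K × K × K :=
  ((v.2 + (3 - s) * v.1 + (6 * s - 10)) / (v.1 - (4 - 2 * s)),
   -(v.2 - (3 - s) * v.1 - (6 * s - 10)) / (v.1 - (4 - 2 * s)),
   -(16 - 8 * s) / (v.1 - (4 - 2 * s)))

/-- The inverse map. -/
def ofT (s : K) (t : K × K × K) : K × K :=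
  ((4 - 2 * s) - t.1 * t.2.1, -((t.1 - t.2.1) * (t.1 * t.2.1)) / 2)

lemma m_ne_zero (s : K) (hs : s ^ 2 = 3) (h2 : (2 : K) ≠ 0) : (16 - 8 * s : K) ≠ 0 := by
  intro h
  have h1 : (16 - 8 * s) * (2 + s) = 8 := by linear_combination (-8) * hs
  rw [h, zero_mul] at h1
  have : (2 : K) ^ 3 = 0 := by rw [show (2 : K) ^ 3 = 8 by norm_num, ← h1]
  exact h2 (pow_eq_zero_iff (by norm_num) |>.mp this)

lemma toT_sum (s x y : K) (hv : x ≠ 4 - 2 * s) (hs : s ^ 2 = 3) :
    (toT s (x, y)).1 + (toT s (x, y)).2.1 + (toT s (x, y)).2.2 = 6 - 2 * s := by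
  have h : x - (4 - 2 * s) ≠ 0 := sub_ne_zero.mpr hv
  simp only [toT]
  rw [← add_div, ← add_div, div_eq_iff h]
  linear_combination (4 : K) * hs

lemma toT_prod (s x y : K) (hv : x ≠ 4 - 2 * s) (hs : s ^ 2 = 3)
    (hc : y ^ 2 = x ^ 3 + 4 * (2 * s - 3) * x) :
    (toT s (x, y)).1 * (toT s (x, y)).2.1 * (toT s (x, y)).2.2 = 16 - 8 * s := by
  have h : x - (4 - 2 * s) ≠ 0 := sub_ne_zero.mpr hv
  simp only [toT]
  rw [div_mul_div_comm, div_mul_div_comm,
    div_eq_iff (mul_ne_zero (mul_ne_zero h h) h)]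
  have key : (y + (3 - s) * x + (6 * s - 10)) * (y - (3 - s) * x - (6 * s - 10))
      = (x - (4 - 2 * s)) ^ 3 := by
    have e : s ^ 3 = 3 * s := by rw [pow_succ, hs]
    linear_combination hc + (-x ^ 2 + 12 - 8 * s) * hs
  linear_combination (16 - 8 * s) * key

/-- The inverse map lands on the curve. -/
lemma ofT_curve (s X Y Z : K) (hs : s ^ 2 = 3) (h2 : (2 : K) ≠ 0)
    (h1 : X + Y + Z = 6 - 2 * s) (hm : X * Y * Z = 16 - 8 * s) :
    (ofT s (X, Y, Z)).2 ^ 2 = (ofT s (X, Y, Z)).1 ^ 3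
      + 4 * (2 * s - 3) * (ofT s (X, Y, Z)).1 ∧ (ofT s (X, Y, Z)).1 ≠ 4 - 2 * s ∧
      toT s (ofT s (X, Y, Z)) = (X, Y, Z) := by
  have hm0 := m_ne_zero s hs h2
  have hXYZ : X * Y * Z ≠ 0 := by rw [hm]; exact hm0
  have hXY : X * Y ≠ 0 := left_ne_zero_of_mul hXYZ
  have h4 : (4 : K) ≠ 0 := by
    rw [show (4 : K) = 2 ^ 2 by norm_num]; exact pow_ne_zero _ h2
  -- (3 - s) XY - (8 - 4 s) = XY (X + Y) / 2
  have hk : 2 * ((3 - s) * (X * Y) - (8 - 4 * s)) = X * Y * (X + Y) := by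
    linear_combination (X * Y) * (-h1) + hm
  refine ⟨?_, ?_, ?_⟩
  · simp only [ofT]
    rw [div_pow, div_eq_iff (pow_ne_zero _ h2)]
    have hk2 : 4 * ((3 - s) * (X * Y) - (8 - 4 * s)) ^ 2 = (X * Y * (X + Y)) ^ 2 := by
      rw [← hk]; ring
    linear_combination (-1 : K) * hk2 + (16 * (X * Y) + 4 * (X * Y) ^ 2 - 64 + 32 * s) * hs
  · simp only [ofT]
    intro h
    apply hXY
    linear_combination -h
  · simp only [toT, ofT, Prod.mk.injEq]
    have hd : 4 - 2 * s - X * Y - (4 - 2 * s) = -(X * Y) := by ring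
    have hd0 : 4 - 2 * s - X * Y - (4 - 2 * s) ≠ 0 := by rw [hd]; exact neg_ne_zero.mpr hXY
    refine ⟨?_, ?_, ?_⟩
    · rw [div_eq_iff hd0]
      field_simp
      linear_combination -hk + 4 * hs
    · rw [div_eq_iff hd0]
      field_simp
      linear_combination -hk + 4 * hs
    · rw [div_eq_iff hd0]
      linear_combination hm

lemma curve_key (s x y : K) (hs : s ^ 2 = 3)
    (hc : y ^ 2 = x ^ 3 + 4 * (2 * s - 3) * x) :
    (y + (3 - s) * x + (6 * s - 10)) * (y - (3 - s) * x - (6 * s - 10))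
      = (x - (4 - 2 * s)) ^ 3 := by
  linear_combination hc + (-x ^ 2 + 12 - 8 * s) * hs

lemma toT_mul (s x y : K) (hv : x ≠ 4 - 2 * s) (hs : s ^ 2 = 3)
    (hc : y ^ 2 = x ^ 3 + 4 * (2 * s - 3) * x) :
    (toT s (x, y)).1 * (toT s (x, y)).2.1 = -(x - (4 - 2 * s)) := by
  have h : x - (4 - 2 * s) ≠ 0 := sub_ne_zero.mpr hv
  simp only [toT]
  rw [div_mul_div_comm, div_eq_iff (mul_ne_zero h h)]
  linear_combination (-1 : K) * curve_key s x y hs hc

lemma ofT_toT (s x y : K) (hv : x ≠ 4 - 2 * s) (hs : s ^ 2 = 3) (h2 : (2 : K) ≠ 0)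
    (hc : y ^ 2 = x ^ 3 + 4 * (2 * s - 3) * x) :
    ofT s (toT s (x, y)) = (x, y) := by
  have h : x - (4 - 2 * s) ≠ 0 := sub_ne_zero.mpr hv
  have hmul := toT_mul s x y hv hs hc
  have hsub : (toT s (x, y)).1 - (toT s (x, y)).2.1 = 2 * y / (x - (4 - 2 * s)) := by
    simp only [toT]
    rw [← sub_div]
    congr 1
    ring
  simp only [ofT, Prod.mk.injEq]
  rw [hmul, hsub]
  refine ⟨by ring, ?_⟩
  rw [div_eq_iff h2, mul_neg, neg_neg, div_mul_cancel₀ _ h]
  ring

lemma no_const (s a : K) (hs : s ^ 2 = 3) (h2 : (2 : K) ≠ 0) (h3 : (3 : K) ≠ 0)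
    (h1 : a + a + a = 6 - 2 * s) (hm : a * a * a = 16 - 8 * s) : False := by
  have h : (3 * a) ^ 3 = (6 - 2 * s) ^ 3 := by rw [← h1]; ring
  have h24 : (2 : K) ^ 3 * 3 * s = 0 := by
    linear_combination h - 27 * hm + (72 - 8 * s) * hs
  have hs0 : s ≠ 0 := by
    rintro rfl
    apply h3
    rw [← hs]; ring
  rcases mul_eq_zero.mp h24 with h' | h'
  · rcases mul_eq_zero.mp h' with h'' | h''
    · exact h2 (pow_eq_zero_iff (by norm_num) |>.mp h'')
    · exact h3 h''
  · exact hs0 h'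

end Curve

section CaseA

variable {p : ℕ} [Fact p.Prime]

lemma natCast_ne_zero_of_lt (q : ℕ) (hq0 : 0 < q) (hq : q < p) : (q : ZMod p) ≠ 0 := by
  intro h
  rw [ZMod.natCast_eq_zero_iff] at h
  exact absurd (Nat.le_of_dvd hq0 h) (by omega)

lemma caseA_mod3 (hp5 : 3 < p) (s : ZMod p) (hs : s ^ 2 = 3) :
    (3 : ℤ) ∣ (p : ℤ) - 2 + jS (4 * (2 * s - 3)) := by
  have hp2 : p ≠ 2 := by omega
  have h2 : (2 : ZMod p) ≠ 0 := by exact_mod_cast natCast_ne_zero_of_lt (p := p) 2 (by norm_num) (by omega)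
  have h3 : (3 : ZMod p) ≠ 0 := by exact_mod_cast natCast_ne_zero_of_lt (p := p) 3 (by norm_num) (by omega)
  let E : Finset (ZMod p × ZMod p) :=
    univ.filter fun v => v.2 ^ 2 = v.1 ^ 3 + 4 * (2 * s - 3) * v.1 ∧ v.1 ≠ 4 - 2 * s
  let T : Finset (ZMod p × ZMod p × ZMod p) :=
    univ.filter fun t => t.1 + t.2.1 + t.2.2 = 6 - 2 * s ∧ t.1 * t.2.1 * t.2.2 = 16 - 8 * s
  have hET : E.card = T.card := by
    apply Finset.card_nbij' (toT s) (ofT s)
    · rintro ⟨x, y⟩ hv
      simp only [E, coe_filter, mem_univ, true_and, Set.mem_ofPred_eq] at hv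
      simp only [T, coe_filter, mem_univ, true_and, Set.mem_ofPred_eq]
      exact ⟨toT_sum s x y hv.2 hs, toT_prod s x y hv.2 hs hv.1⟩
    · rintro ⟨X, Y, Z⟩ ht
      simp only [T, coe_filter, mem_univ, true_and, Set.mem_ofPred_eq] at ht
      simp only [E, coe_filter, mem_univ, true_and, Set.mem_ofPred_eq]
      have := ofT_curve s X Y Z hs h2 ht.1 ht.2
      exact ⟨this.1, this.2.1⟩
    · rintro ⟨x, y⟩ hv
      simp only [E, coe_filter, mem_univ, true_and, Set.mem_ofPred_eq] at hv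
      exact ofT_toT s x y hv.2 hs h2 hv.1
    · rintro ⟨X, Y, Z⟩ ht
      simp only [T, coe_filter, mem_univ, true_and, Set.mem_ofPred_eq] at ht
      exact (ofT_curve s X Y Z hs h2 ht.1 ht.2).2.2
  have hT3 : 3 ∣ T.card := by
    apply three_dvd_card_of_cyclic
    · intro a b c h
      simp only [T, mem_filter, mem_univ, true_and] at h ⊢
      exact ⟨by rw [← h.1]; ring, by rw [← h.2]; ring⟩
    · intro a h
      simp only [T, mem_filter, mem_univ, true_and] at h
      exact no_const s a hs h2 h3 h.1 h.2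
  have hE : (E.card : ℤ) = (p : ℤ) - 2 + jS (4 * (2 * s - 3)) := by
    have h1 : (E.card : ℤ) = ∑ x : ZMod p, ∑ y : ZMod p,
        (if y ^ 2 = x ^ 3 + 4 * (2 * s - 3) * x ∧ x ≠ 4 - 2 * s then (1 : ℤ) else 0) := by
      simp only [E]
      rw [Finset.card_filter]
      push_cast
      rw [Fintype.sum_prod_type]
    rw [h1]
    have h4 : ∀ x : ZMod p, ∑ y : ZMod p,
        (if y ^ 2 = x ^ 3 + 4 * (2 * s - 3) * x ∧ x ≠ 4 - 2 * s then (1 : ℤ) else 0)
        = (quadraticChar (ZMod p) (x ^ 3 + 4 * (2 * s - 3) * x) + 1)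
          - (if x = 4 - 2 * s then 2 else 0) := by
      intro x
      have hcard := quadraticChar_card_sqrts (ringChar_ne_two (p := p) hp2)
        (x ^ 3 + 4 * (2 * s - 3) * x)
      by_cases hx : x = 4 - 2 * s
      · rw [if_pos hx]
        have hval : x ^ 3 + 4 * (2 * s - 3) * x = (8 - 4 * s) ^ 2 := by
          rw [hx]
          linear_combination (16 - 8 * s) * hs
        have hne : (8 - 4 * s : ZMod p) ≠ 0 := by
          intro h
          apply m_ne_zero s hs h2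
          linear_combination 2 * h
        rw [hval, map_pow, quadraticChar_sq_one hne]
        simp [hx]
      · rw [if_neg hx, sub_zero, ← hcard]
        simp only [ne_eq, hx, not_false_eq_true, and_true]
        rw [← Finset.natCast_card_filter]
        congr 2
        ext y
        simp
    rw [Finset.sum_congr rfl (fun x _ => h4 x), Finset.sum_sub_distrib, Finset.sum_add_distrib]
    simp only [sum_const, card_univ, ZMod.card, smul_eq_mul, mul_one, nsmul_eq_mul,
      sum_ite_eq', mem_univ, if_true, sum_ite_eq, jS]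
    ring
  rw [← hE, hET]
  exact_mod_cast hT3

end CaseA

section Isogeny

variable {K : Type*} [Field K]

/-- The degree two isogeny from the curve to its conjugate. -/
def phi (s : K) (v : K × K) : K × K :=
  ((v.1 ^ 2 + 4 * (2 * s - 3)) / ((4 - 2 * s) * v.1),
   v.2 * (v.1 ^ 2 - 4 * (2 * s - 3)) / ((10 - 6 * s) * v.1 ^ 2))

lemma r_ne_zero (s : K) (hs : s ^ 2 = 3) (h2 : (2 : K) ≠ 0) : (1 - s : K) ≠ 0 := by
  intro h
  apply h2
  linear_combination (-(1 + s)) * h - hs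

lemma r2_ne_zero (s : K) (hs : s ^ 2 = 3) (h2 : (2 : K) ≠ 0) : (4 - 2 * s : K) ≠ 0 := by
  have h : (4 - 2 * s : K) = (1 - s) ^ 2 := by linear_combination (-1 : K) * hs
  rw [h]
  exact pow_ne_zero _ (r_ne_zero s hs h2)

lemma r3_ne_zero (s : K) (hs : s ^ 2 = 3) (h2 : (2 : K) ≠ 0) : (10 - 6 * s : K) ≠ 0 := by
  have h : (10 - 6 * s : K) = (1 - s) ^ 3 := by linear_combination (s - 3) * hs
  rw [h]
  exact pow_ne_zero _ (r_ne_zero s hs h2)

lemma phi_curve (s x y : K) (hs : s ^ 2 = 3) (h2 : (2 : K) ≠ 0) (hx : x ≠ 0)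
    (hc : y ^ 2 = x ^ 3 + 4 * (2 * s - 3) * x) :
    (phi s (x, y)).2 ^ 2 = (phi s (x, y)).1 ^ 3 + 4 * (2 * (-s) - 3) * (phi s (x, y)).1 := by
  have hr2 := r2_ne_zero s hs h2
  have hr3 := r3_ne_zero s hs h2
  have ha : (phi s (x, y)).1 * ((4 - 2 * s) * x) = x ^ 2 + 4 * (2 * s - 3) := by
    simp only [phi]
    rw [div_mul_cancel₀ _ (mul_ne_zero hr2 hx)]
  have hb : (phi s (x, y)).2 * ((10 - 6 * s) * x ^ 2) = y * (x ^ 2 - 4 * (2 * s - 3)) := by
    simp only [phi]
    rw [div_mul_cancel₀ _ (mul_ne_zero hr3 (pow_ne_zero _ hx))]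
  generalize (phi s (x, y)).1 = u at *
  generalize (phi s (x, y)).2 = v at *
  have hne : ((10 - 6 * s) * x ^ 2) ^ 2 ≠ 0 := pow_ne_zero _ (mul_ne_zero hr3 (pow_ne_zero _ hx))
  apply mul_right_cancel₀ hne
  linear_combination (v * ((10 - 6 * s) * x ^ 2) + y * (x ^ 2 - 4 * (2 * s - 3))) * hb
    + (x ^ 2 - 4 * (2 * s - 3)) ^ 2 * hc
    - (x * ((u * ((4 - 2 * s) * x)) ^ 2 + (u * ((4 - 2 * s) * x)) * (x ^ 2 + 4 * (2 * s - 3))
        + (x ^ 2 + 4 * (2 * s - 3)) ^ 2) + 4 * (2 * (-s) - 3) * (4 - 2 * s) ^ 2 * x ^ 3) * ha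
    - ((8 * s - 12) * u ^ 3 * x ^ 4 + 4 * (2 * (-s) - 3) * (8 * s - 12) * u * x ^ 4
        + x ^ 3 * (x ^ 2 + 4 * (2 * s - 3)) * (80 - 32 * s)) * hs

/-- The isogeny in the coordinates of the cyclic cubic (first coordinate). -/
lemma toT_phi_fst (s x y : K) (hs : s ^ 2 = 3) (h2 : (2 : K) ≠ 0) (hx : x ≠ 0)
    (hd : x ≠ 4 - 2 * s) (hu : (phi s (x, y)).1 ≠ 4 + 2 * s)
    (hc : y ^ 2 = x ^ 3 + 4 * (2 * s - 3) * x) :
    (1 - s) * ((toT s (x, y)).1 - (1 - s)) * (toT (-s) (phi s (x, y))).1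
      = (toT s (x, y)).1 * ((toT s (x, y)).1 - 4) := by
  have hr2 := r2_ne_zero s hs h2
  have hr3 := r3_ne_zero s hs h2
  have ha : (phi s (x, y)).1 * ((4 - 2 * s) * x) = x ^ 2 + 4 * (2 * s - 3) := by
    simp only [phi]
    rw [div_mul_cancel₀ _ (mul_ne_zero hr2 hx)]
  have hb : (phi s (x, y)).2 * ((10 - 6 * s) * x ^ 2) = y * (x ^ 2 - 4 * (2 * s - 3)) := by
    simp only [phi]
    rw [div_mul_cancel₀ _ (mul_ne_zero hr3 (pow_ne_zero _ hx))]
  have hd1 : x - (4 - 2 * s) ≠ 0 := sub_ne_zero.mpr hd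
  have hu1 : (phi s (x, y)).1 - (4 - 2 * (-s)) ≠ 0 := by
    intro h
    apply hu
    linear_combination h
  simp only [toT]
  generalize (phi s (x, y)).1 = u at *
  generalize (phi s (x, y)).2 = v at *
  have hX : (y + (3 - s) * x + (6 * s - 10)) / (x - (4 - 2 * s)) * (x - (4 - 2 * s))
      = y + (3 - s) * x + (6 * s - 10) := div_mul_cancel₀ _ hd1
  have hX1 : (v + (3 - -s) * u + (6 * -s - 10)) / (u - (4 - 2 * -s)) * (u - (4 - 2 * -s))
      = v + (3 - -s) * u + (6 * -s - 10) := div_mul_cancel₀ _ hu1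
  generalize (y + (3 - s) * x + (6 * s - 10)) / (x - (4 - 2 * s)) = X at *
  generalize (v + (3 - -s) * u + (6 * -s - 10)) / (u - (4 - 2 * -s)) = X1 at *
  have hN1 : (v + (3 - -s) * u + (6 * -s - 10)) * ((10 - 6 * s) * x ^ 2)
      = y * (x ^ 2 - (8 * s - 12)) + (3 + s) * (1 - s) * x * (x ^ 2 + (8 * s - 12))
        - (6 * s + 10) * (10 - 6 * s) * x ^ 2 := by
    linear_combination hb + (3 + s) * (1 - s) * x * ha - 2 * (3 + s) * x ^ 2 * u * hs
  have hd2 : (u - (4 - 2 * -s)) * ((10 - 6 * s) * x ^ 2)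
      = (1 - s) * x * (x ^ 2 + (8 * s - 12)) - (4 + 2 * s) * (10 - 6 * s) * x ^ 2 := by
    linear_combination (1 - s) * x * ha - 2 * x ^ 2 * u * hs
  have hne : (x - (4 - 2 * s)) ^ 2 * (u - (4 - 2 * -s)) * ((10 - 6 * s) * x ^ 2) ≠ 0 :=
    mul_ne_zero (mul_ne_zero (pow_ne_zero _ hd1) hu1) (mul_ne_zero hr3 (pow_ne_zero _ hx))
  apply mul_right_cancel₀ hne
  calc (1 - s) * (X - (1 - s)) * X1
        * ((x - (4 - 2 * s)) ^ 2 * (u - (4 - 2 * -s)) * ((10 - 6 * s) * x ^ 2))
      = (1 - s) * (X * (x - (4 - 2 * s)) - (1 - s) * (x - (4 - 2 * s)))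
        * ((X1 * (u - (4 - 2 * -s))) * ((10 - 6 * s) * x ^ 2)) * (x - (4 - 2 * s)) := by ring
    _ = (X * (x - (4 - 2 * s))) * (X * (x - (4 - 2 * s)) - 4 * (x - (4 - 2 * s)))
        * ((u - (4 - 2 * -s)) * ((10 - 6 * s) * x ^ 2)) := by
        rw [hX, hX1, hN1, hd2]
        linear_combination (-14 * x ^ 2 * s ^ 2 + 2 * x ^ 2 * s + 36 * x ^ 2 + 16 * x * s ^ 2 - 40 * x * s +
        24 * x + 16 * s ^ 3 - 72 * s ^ 2 + 104 * s - 48) * hc + (3 * x ^ 5 * s - 15 * x ^ 5 + x ^ 4 * y * s - x ^ 4 * y + 2 * x ^ 4 * s ^ 3 - 6 *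
        x ^ 4 * s ^ 2 - 70 * x ^ 4 * s + 122 * x ^ 4 + 2 * x ^ 3 * y * s ^ 2 - 16 * x ^
        3 * y * s + 14 * x ^ 3 * y + 4 * x ^ 3 * s ^ 4 - 76 * x ^ 3 * s ^ 3 - 28 * x ^ 3
        * s ^ 2 + 644 * x ^ 3 * s - 688 * x ^ 3 - 68 * x ^ 2 * y * s ^ 2 + 160 * x ^ 2 *
        y * s - 92 * x ^ 2 * y - 128 * x ^ 2 * s ^ 4 + 456 * x ^ 2 * s ^ 3 + 40 * x ^ 2
        * s ^ 2 - 1592 * x ^ 2 * s + 1416 * x ^ 2 + 16 * x * y * s ^ 3 - 24 * x * y * s
        ^ 2 - 16 * x * y * s + 24 * x * y + 32 * x * s ^ 5 - 80 * x * s ^ 4 - 176 * x *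
        s ^ 3 + 784 * x * s ^ 2 - 896 * x * s + 336 * x + 32 * y * s ^ 3 - 144 * y * s ^
        2 + 208 * y * s - 96 * y) * hs
    _ = X * (X - 4) * ((x - (4 - 2 * s)) ^ 2 * (u - (4 - 2 * -s)) * ((10 - 6 * s) * x ^ 2)) := by
        ring

/-- Second coordinate. -/
lemma toT_phi_snd (s x y : K) (hs : s ^ 2 = 3) (h2 : (2 : K) ≠ 0) (hx : x ≠ 0)
    (hd : x ≠ 4 - 2 * s) (hu : (phi s (x, y)).1 ≠ 4 + 2 * s)
    (hc : y ^ 2 = x ^ 3 + 4 * (2 * s - 3) * x) :
    (1 - s) * ((toT s (x, y)).2.1 - (1 - s)) * (toT (-s) (phi s (x, y))).2.1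
      = (toT s (x, y)).2.1 * ((toT s (x, y)).2.1 - 4) := by
  have h := toT_phi_fst s x (-y) hs h2 hx hd hu (by rw [neg_sq]; exact hc)
  have e1 : (toT s (x, -y)).1 = (toT s (x, y)).2.1 := by
    simp only [toT]
    congr 1
    ring
  have e2 : (toT (-s) (phi s (x, -y))).1 = (toT (-s) (phi s (x, y))).2.1 := by
    simp only [toT, phi]
    congr 1
    ring
  rw [e1, e2] at h
  exact h

/-- Third coordinate. -/
lemma toT_phi_trd (s x y : K) (hs : s ^ 2 = 3) (h2 : (2 : K) ≠ 0) (hx : x ≠ 0)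
    (hd : x ≠ 4 - 2 * s) (hu : (phi s (x, y)).1 ≠ 4 + 2 * s) :
    (1 - s) * ((toT s (x, y)).2.2 - (1 - s)) * (toT (-s) (phi s (x, y))).2.2
      = (toT s (x, y)).2.2 * ((toT s (x, y)).2.2 - 4) := by
  have hr2 := r2_ne_zero s hs h2
  have ha : (phi s (x, y)).1 * ((4 - 2 * s) * x) = x ^ 2 + 4 * (2 * s - 3) := by
    simp only [phi]
    rw [div_mul_cancel₀ _ (mul_ne_zero hr2 hx)]
  have hd1 : x - (4 - 2 * s) ≠ 0 := sub_ne_zero.mpr hd
  have hu1 : (phi s (x, y)).1 - (4 - 2 * (-s)) ≠ 0 := by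
    intro h
    apply hu
    linear_combination h
  simp only [toT]
  generalize (phi s (x, y)).1 = u at *
  have hX : -(16 - 8 * s) / (x - (4 - 2 * s)) * (x - (4 - 2 * s)) = -(16 - 8 * s) :=
    div_mul_cancel₀ _ hd1
  have hX1 : -(16 - 8 * -s) / (u - (4 - 2 * -s)) * (u - (4 - 2 * -s)) = -(16 - 8 * -s) :=
    div_mul_cancel₀ _ hu1
  generalize -(16 - 8 * s) / (x - (4 - 2 * s)) = Z at *
  generalize -(16 - 8 * -s) / (u - (4 - 2 * -s)) = Z1 at *
  have hne : (x - (4 - 2 * s)) ^ 2 * (u - (4 - 2 * -s)) * ((4 - 2 * s) * x) ≠ 0 :=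
    mul_ne_zero (mul_ne_zero (pow_ne_zero _ hd1) hu1) (mul_ne_zero hr2 hx)
  apply mul_right_cancel₀ hne
  calc (1 - s) * (Z - (1 - s)) * Z1
        * ((x - (4 - 2 * s)) ^ 2 * (u - (4 - 2 * -s)) * ((4 - 2 * s) * x))
      = (1 - s) * (Z * (x - (4 - 2 * s)) - (1 - s) * (x - (4 - 2 * s)))
        * ((Z1 * (u - (4 - 2 * -s))) * ((4 - 2 * s) * x)) * (x - (4 - 2 * s)) := by ring
    _ = (Z * (x - (4 - 2 * s))) * (Z * (x - (4 - 2 * s)) - 4 * (x - (4 - 2 * s)))
        * ((u - (4 - 2 * -s)) * ((4 - 2 * s) * x)) := by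
        rw [hX, hX1]
        linear_combination (-((16 - 8 * s) * ((16 - 8 * s) + 4 * (x - (4 - 2 * s))))) * ha
          + (-16 * x ^ 3 * s ^ 2 + 32 * x ^ 3 * s - 64 * x ^ 2 * s ^ 3 + 128 * x ^ 2 * s ^ 2 + 256 * x ^ 2 * s - 512 * x ^ 2 - 64 * x * s ^ 4 + 128 * x * s ^ 3 + 512 * x * s ^ 2 - 1408 * x * s + 768 * x) * hs
    _ = Z * (Z - 4) * ((x - (4 - 2 * s)) ^ 2 * (u - (4 - 2 * -s)) * ((4 - 2 * s) * x)) := by
        ring

end Isogeny

section Frob

variable {K : Type*} [Field K] (p : ℕ) [Fact p.Prime] [CharP K p]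

/-- Points whose Frobenius image is their isogeny image. -/
def OnF (s : K) (v : K × K) : Prop :=
  v.2 ^ 2 = v.1 ^ 3 + 4 * (2 * s - 3) * v.1 ∧ v.1 ≠ 0 ∧ (v.1 ^ p, v.2 ^ p) = phi s v

/-- The corresponding set in the cyclic cubic. -/
def OnT (s : K) (t : K × K × K) : Prop :=
  t.1 + t.2.1 + t.2.2 = 6 - 2 * s ∧ t.1 * t.2.1 * t.2.2 = 16 - 8 * s ∧
  (1 - s) * (t.1 - (1 - s)) * t.1 ^ p = t.1 * (t.1 - 4) ∧
  (1 - s) * (t.2.1 - (1 - s)) * t.2.1 ^ p = t.2.1 * (t.2.1 - 4) ∧
  (1 - s) * (t.2.2 - (1 - s)) * t.2.2 ^ p = t.2.2 * (t.2.2 - 4)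

omit [Fact (Nat.Prime p)] [CharP K p] in
lemma OnT_cyc (s : K) (X Y Z : K) (h : OnT p s (X, Y, Z)) : OnT p s (Y, Z, X) := by
  obtain ⟨h1, h2, h3, h4, h5⟩ := h
  refine ⟨?_, ?_, h4, h5, h3⟩
  · simp only at h1 ⊢; rw [← h1]; ring
  · simp only at h2 ⊢; rw [← h2]; ring

lemma frob_toT (s x y : K) (hsp : s ^ p = -s) :
    ((toT s (x, y)).1 ^ p, (toT s (x, y)).2.1 ^ p, (toT s (x, y)).2.2 ^ p)
      = toT (-s) (x ^ p, y ^ p) := by
  have e : ∀ a : K, a ^ p = frobenius K p a := fun a => rfl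
  simp only [toT, Prod.mk.injEq]
  refine ⟨?_, ?_, ?_⟩
  all_goals
    rw [e] at hsp
    simp only [e, map_div₀, map_add, map_sub, map_mul, map_neg, map_ofNat, hsp]

lemma frob_ofT (s X Y Z : K) (hsp : s ^ p = -s) :
    ((ofT s (X, Y, Z)).1 ^ p, (ofT s (X, Y, Z)).2 ^ p)
      = ofT (-s) (X ^ p, Y ^ p, Z ^ p) := by
  have e : ∀ a : K, a ^ p = frobenius K p a := fun a => rfl
  simp only [ofT, Prod.mk.injEq]
  refine ⟨?_, ?_⟩
  all_goals
    rw [e] at hsp
    simp only [e, map_div₀, map_sub, map_mul, map_neg, map_ofNat, hsp]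

lemma F_to_T (s x y : K) (hs : s ^ 2 = 3) (h2 : (2 : K) ≠ 0) (hsp : s ^ p = -s)
    (hF : OnF p s (x, y)) (hd : x ≠ 4 - 2 * s) : OnT p s (toT s (x, y)) := by
  obtain ⟨hc, hx, hphi⟩ := hF
  simp only at hc hx hphi
  have e : ∀ a : K, a ^ p = frobenius K p a := fun a => rfl
  have hu : (phi s (x, y)).1 ≠ 4 + 2 * s := by
    rw [← hphi]
    simp only
    intro h
    apply hd
    apply (frobenius K p).injective
    rw [← e, h]
    simp only [map_sub, map_mul, map_ofNat]
    rw [← e, hsp]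
    ring
  have hfr := frob_toT p s x y hsp
  rw [hphi] at hfr
  have h1 : (toT s (x, y)).1 ^ p = (toT (-s) (phi s (x, y))).1 := congrArg Prod.fst hfr
  have h3 : (toT s (x, y)).2.1 ^ p = (toT (-s) (phi s (x, y))).2.1 :=
    congrArg (fun t => t.2.1) hfr
  have h4 : (toT s (x, y)).2.2 ^ p = (toT (-s) (phi s (x, y))).2.2 :=
    congrArg (fun t => t.2.2) hfr
  refine ⟨toT_sum s x y hd hs, toT_prod s x y hd hs hc, ?_, ?_, ?_⟩
  · rw [h1]; exact toT_phi_fst s x y hs h2 hx hd hu hc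
  · rw [h3]; exact toT_phi_snd s x y hs h2 hx hd hu hc
  · rw [h4]; exact toT_phi_trd s x y hs h2 hx hd hu

lemma T_to_F (s X Y Z : K) (hs : s ^ 2 = 3) (h2 : (2 : K) ≠ 0) (h3 : (3 : K) ≠ 0)
    (hsp : s ^ p = -s) (hT : OnT p s (X, Y, Z)) :
    OnF p s (ofT s (X, Y, Z)) ∧ (ofT s (X, Y, Z)).1 ≠ 4 - 2 * s := by
  have hT0 := hT
  obtain ⟨h1, hm, hX, hY, hZ⟩ := hT
  simp only at h1 hm hX hY hZ
  obtain ⟨hcur, hd, hinv⟩ := ofT_curve s X Y Z hs h2 h1 hm
  refine ⟨?_, hd⟩
  have hm0 := m_ne_zero s hs h2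
  have hXYZ : X * Y * Z ≠ 0 := by rw [hm]; exact hm0
  have hX0 : X ≠ 0 := left_ne_zero_of_mul (left_ne_zero_of_mul hXYZ)
  have hY0 : Y ≠ 0 := right_ne_zero_of_mul (left_ne_zero_of_mul hXYZ)
  have hZ0 : Z ≠ 0 := right_ne_zero_of_mul hXYZ
  have hr := r_ne_zero s hs h2
  have hr2 := r2_ne_zero s hs h2
  have hs0 : s ≠ 0 := by
    rintro rfl
    apply h3; rw [← hs]; ring
  -- r (r - 4) ≠ 0
  have hr4 : (1 - s) - 4 ≠ (0 : K) := by
    intro h
    have : (2 : K) * 3 = 0 := by linear_combination (s - 3) * h + hs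
    rcases mul_eq_zero.mp this with h' | h'
    · exact h2 h'
    · exact h3 h'
  have hne : ∀ W : K, W ≠ 0 → (1 - s) * (W - (1 - s)) * W ^ p = W * (W - 4) →
      W - (1 - s) ≠ 0 ∧ W - 4 ≠ 0 := by
    intro W hW0 hW
    have hWr : W - (1 - s) ≠ 0 := by
      intro h
      rw [h, mul_zero, zero_mul] at hW
      have hW' : W = 1 - s := by linear_combination h
      rw [hW'] at hW
      rcases mul_eq_zero.mp hW.symm with h' | h'
      · exact hr h'
      · exact hr4 h'
    refine ⟨hWr, ?_⟩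
    intro h
    rw [h, mul_zero] at hW
    exact (mul_ne_zero (mul_ne_zero hr hWr) (pow_ne_zero _ hW0)) hW
  obtain ⟨hXr, _⟩ := hne X hX0 hX
  obtain ⟨hYr, _⟩ := hne Y hY0 hY
  obtain ⟨hZr, hZ4⟩ := hne Z hZ0 hZ
  -- coordinates
  set x := (ofT s (X, Y, Z)).1 with hxdef
  set y := (ofT s (X, Y, Z)).2 with hydef
  have hxy : ofT s (X, Y, Z) = (x, y) := rfl
  have hxP : x = 4 - 2 * s - X * Y := rfl
  -- x ≠ 0
  have hx0 : x ≠ 0 := by
    intro h
    apply hZ4
    have hP : X * Y = 4 - 2 * s := by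
      have := hxP
      rw [h] at this
      linear_combination this
    rw [hP] at hm
    apply mul_left_cancel₀ hr2
    linear_combination hm
  rw [hxy] at hinv
  have hu : (phi s (x, y)).1 ≠ 4 + 2 * s := by
    intro h
    apply hZr
    have ha : (phi s (x, y)).1 * ((4 - 2 * s) * x) = x ^ 2 + 4 * (2 * s - 3) := by
      simp only [phi]
      rw [div_mul_cancel₀ _ (mul_ne_zero hr2 hx0)]
    rw [h] at ha
    -- (x - (4-2s) + 4 (1-s)) (x - (4 - 2s)) = 0
    have hd' : x - (4 - 2 * s) ≠ 0 := sub_ne_zero.mpr hd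
    have hfac : (x - (4 - 2 * s) + 4 * (1 - s)) * (x - (4 - 2 * s)) = 0 := by
      linear_combination -ha + (-4 * x - 4) * hs
    have hxx := (mul_eq_zero.mp hfac).resolve_right hd'
    have hP : X * Y = 4 * (1 - s) := by rw [hxP] at hxx; linear_combination -hxx
    rw [hP] at hm
    have h4 : (4 : K) * (1 - s) ≠ 0 := by
      apply mul_ne_zero _ hr
      rw [show (4 : K) = 2 ^ 2 by norm_num]; exact pow_ne_zero _ h2
    apply mul_left_cancel₀ h4
    linear_combination hm - 4 * hs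
  have hphic := phi_curve s x y hs h2 hx0 hcur
  have hs' : (-s) ^ 2 = 3 := by rw [neg_sq]; exact hs
  have hu' : (phi s (x, y)).1 ≠ 4 - 2 * (-s) := by
    intro h; apply hu; linear_combination h
  have hback := ofT_toT (-s) (phi s (x, y)).1 (phi s (x, y)).2 hu' hs' h2 hphic
  have hA := toT_phi_fst s x y hs h2 hx0 hd hu hcur
  have hB := toT_phi_snd s x y hs h2 hx0 hd hu hcur
  have hC := toT_phi_trd s x y hs h2 hx0 hd hu
  rw [hinv] at hA hB hC
  simp only at hA hB hC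
  have hA' : (toT (-s) (phi s (x, y))).1 = X ^ p :=
    mul_left_cancel₀ (mul_ne_zero hr hXr) (by rw [hA, hX])
  have hB' : (toT (-s) (phi s (x, y))).2.1 = Y ^ p :=
    mul_left_cancel₀ (mul_ne_zero hr hYr) (by rw [hB, hY])
  have hC' : (toT (-s) (phi s (x, y))).2.2 = Z ^ p :=
    mul_left_cancel₀ (mul_ne_zero hr hZr) (by rw [hC, hZ])
  have hABC : toT (-s) (phi s (x, y)) = (X ^ p, Y ^ p, Z ^ p) := by
    rw [← hA', ← hB', ← hC']
  have hback' : ofT (-s) (toT (-s) (phi s (x, y))) = phi s (x, y) := hback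
  rw [hABC, ← frob_ofT p s X Y Z hsp] at hback'
  exact ⟨hcur, hx0, hback'⟩

end Frob

section Roots

variable {K : Type*} [Field K] [IsAlgClosed K] (p : ℕ) [Fact p.Prime] [CharP K p]

open Polynomial in
/-- The polynomial whose roots are the relevant abscissae. -/
noncomputable def WW (s : K) : K[X] :=
  X ^ (p + 1) - C ((2 + s) / 2) * X ^ 2 - C (2 * s)

open Polynomial in
omit [IsAlgClosed K] [CharP K p] in
lemma WW_natDegree (s : K) : (WW p s).natDegree = p + 1 := by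
  have hp : 2 ≤ p := (Fact.out : p.Prime).two_le
  have h1 : (C ((2 + s) / 2) * X ^ 2 + C (2 * s) : K[X]).natDegree ≤ 2 := by
    compute_degree
  have h2 : WW p s = X ^ (p + 1) - (C ((2 + s) / 2) * X ^ 2 + C (2 * s)) := by
    unfold WW; ring
  rw [h2, natDegree_sub_eq_left_of_natDegree_lt, natDegree_X_pow]
  rw [natDegree_X_pow]
  omega

open Polynomial in
omit [IsAlgClosed K] [CharP K p] in
lemma WW_monic (s : K) : (WW p s).Monic := by
  have hp : 2 ≤ p := (Fact.out : p.Prime).two_le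
  rw [Monic, leadingCoeff, WW_natDegree]
  unfold WW
  simp only [coeff_sub, coeff_X_pow, coeff_C_mul, coeff_C]
  rw [if_pos trivial, if_neg (by omega), if_neg (by omega)]
  ring

open Polynomial in
omit [IsAlgClosed K] in
lemma WW_eval (s x : K) : (WW p s).eval x = x ^ (p + 1) - ((2 + s) / 2) * x ^ 2 - 2 * s := by
  simp [WW]

open Polynomial in
omit [IsAlgClosed K] in
lemma WW_deriv_eval (s x : K) (h2 : (2 : K) ≠ 0) :
    (derivative (WW p s)).eval x = x ^ p - (2 + s) * x := by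
  simp [WW]
  field_simp
  ring

/-- the roots -/
noncomputable def RR [DecidableEq K] (s : K) : Finset K := (WW p s).roots.toFinset

lemma mem_RR [DecidableEq K] (s x : K) :
    x ∈ RR p s ↔ x ^ (p + 1) = ((2 + s) / 2) * x ^ 2 + 2 * s := by
  unfold RR
  rw [Multiset.mem_toFinset, Polynomial.mem_roots (WW_monic p s).ne_zero, Polynomial.IsRoot.def,
    WW_eval]
  constructor
  · intro h; linear_combination h
  · intro h; linear_combination h

lemma RR_props [DecidableEq K] (s x : K) (hs : s ^ 2 = 3) (h2 : (2 : K) ≠ 0) (h3 : (3 : K) ≠ 0)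
    (hsp : s ^ p = -s) (hx : x ∈ RR p s) :
    x ≠ 0 ∧ x ^ 2 - 4 * (2 * s - 3) ≠ 0 ∧ x ^ 3 + 4 * (2 * s - 3) * x ≠ 0 ∧
      (Polynomial.derivative (WW p s)).eval x ≠ 0 ∧
      (4 - 2 * s) * x * x ^ p = x ^ 2 + 4 * (2 * s - 3) ∧
      (Polynomial.derivative (WW p s)).eval x * x * ((1 + s) / 2) * (10 - 6 * s)
        = x ^ 2 - 4 * (2 * s - 3) := by
  have hp : p.Prime := Fact.out
  rw [mem_RR] at hx
  have hs0 : s ≠ 0 := by
    rintro rfl
    apply h3; rw [← hs]; ring
  have hx0 : x ≠ 0 := by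
    rintro rfl
    rw [zero_pow (by omega)] at hx
    have : (2 : K) * s = 0 := by linear_combination -hx
    rcases mul_eq_zero.mp this with h | h
    · exact h2 h
    · exact hs0 h
  have hrel : (4 - 2 * s) * x * x ^ p = x ^ 2 + 4 * (2 * s - 3) := by
    have h1 : x * x ^ p = ((2 + s) / 2) * x ^ 2 + 2 * s := by rw [← hx]; ring
    rw [mul_assoc, h1]
    field_simp
    linear_combination (-(2 * x ^ 2) - 8) * hs
  have hc0 : x ^ 2 - 4 * (2 * s - 3) ≠ 0 := by
    intro h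
    have hx2 : x ^ 2 = 4 * (2 * s - 3) := by linear_combination h
    have e1 : x ^ (p + 1) = 4 * s := by
      rw [hx, hx2]
      field_simp
      linear_combination 8 * hs
    have e2 : (x ^ 2) ^ (p + 1) = -48 := by
      have e : ∀ a : K, a ^ p = frobenius K p a := fun a => rfl
      rw [hx2, pow_succ, e]
      rw [e] at hsp
      simp only [map_mul, map_sub, map_ofNat, hsp]
      linear_combination (-64) * hs
    have e3 : (x ^ 2) ^ (p + 1) = 48 := by
      rw [← pow_mul, mul_comm, pow_mul, e1]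
      linear_combination 16 * hs
    have e4 : (2 : K) ^ 5 * 3 = 0 := by
      rw [e2] at e3
      linear_combination -e3
    rcases mul_eq_zero.mp e4 with h' | h'
    · exact h2 (pow_eq_zero_iff (by norm_num) |>.mp h')
    · exact h3 h'
  have hv0 : x ^ 3 + 4 * (2 * s - 3) * x ≠ 0 := by
    have : x ^ 3 + 4 * (2 * s - 3) * x = x * ((4 - 2 * s) * x * x ^ p) := by rw [hrel]; ring
    rw [this]
    exact mul_ne_zero hx0 (mul_ne_zero (mul_ne_zero (r2_ne_zero s hs h2) hx0) (pow_ne_zero _ hx0))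
  have hder : (Polynomial.derivative (WW p s)).eval x * x * ((1 + s) / 2) * (10 - 6 * s)
        = x ^ 2 - 4 * (2 * s - 3) := by
    rw [WW_deriv_eval p s x h2]
    have h1 : x * x ^ p = ((2 + s) / 2) * x ^ 2 + 2 * s := by rw [← hx]; ring
    have h5 : (x ^ p - (2 + s) * x) * x = 2 * s - ((2 + s) / 2) * x ^ 2 := by
      have : (2 + s) * x ^ 2 = ((2 + s) / 2) * x ^ 2 + ((2 + s) / 2) * x ^ 2 := by
        field_simp; ring
      linear_combination h1 - this
    rw [h5]
    field_simp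
    linear_combination (16 + 8 * x ^ 2 - 24 * s + 6 * s * x ^ 2) * hs
  refine ⟨hx0, hc0, hv0, ?_, hrel, hder⟩
  intro h
  rw [h, zero_mul, zero_mul, zero_mul] at hder
  exact hc0 hder.symm

lemma WW_nodup [DecidableEq K] (s : K) (hs : s ^ 2 = 3) (h2 : (2 : K) ≠ 0) (h3 : (3 : K) ≠ 0)
    (hsp : s ^ p = -s) : (WW p s).roots.Nodup := by
  rw [Multiset.nodup_iff_count_le_one]
  intro x
  rw [Polynomial.count_roots]
  by_contra hcon
  have hlt : 1 < (WW p s).rootMultiplicity x := by omega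
  rw [Polynomial.one_lt_rootMultiplicity_iff_isRoot (WW_monic p s).ne_zero] at hlt
  have hx : x ∈ RR p s := by
    unfold RR
    rw [Multiset.mem_toFinset, Polynomial.mem_roots (WW_monic p s).ne_zero]
    exact hlt.1
  exact (RR_props p s x hs h2 h3 hsp hx).2.2.2.1 hlt.2

lemma RR_card [DecidableEq K] (s : K) (hs : s ^ 2 = 3) (h2 : (2 : K) ≠ 0) (h3 : (3 : K) ≠ 0)
    (hsp : s ^ p = -s) : (RR p s).card = p + 1 := by
  unfold RR
  rw [Multiset.toFinset_card_of_nodup (WW_nodup p s hs h2 h3 hsp),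
    IsAlgClosed.card_roots_eq_natDegree, WW_natDegree]

lemma WW_nodal [DecidableEq K] (s : K) (hs : s ^ 2 = 3) (h2 : (2 : K) ≠ 0) (h3 : (3 : K) ≠ 0)
    (hsp : s ^ p = -s) : WW p s = Lagrange.nodal (RR p s) id := by
  have h := Polynomial.prod_multiset_X_sub_C_of_monic_of_roots_card_eq (WW_monic p s)
    (IsAlgClosed.card_roots_eq_natDegree)
  rw [← h, Lagrange.nodal, Finset.prod_eq_multiset_prod]
  congr 1
  unfold RR
  rw [Multiset.toFinset_val, (WW_nodup p s hs h2 h3 hsp).dedup]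
  rfl

lemma sum_RR_pow [DecidableEq K] (s : K) (hs : s ^ 2 = 3) (h2 : (2 : K) ≠ 0) (h3 : (3 : K) ≠ 0)
    (hsp : s ^ p = -s) (m : ℕ) (hm : m ≤ p) :
    ∑ x ∈ RR p s, x ^ m / (Polynomial.derivative (WW p s)).eval x = if m = p then 1 else 0 := by
  have hcard := RR_card p s hs h2 h3 hsp
  have h := Lagrange.coeff_eq_sum (s := RR p s) (v := id) (fun a _ b _ h => h)
    (P := (Polynomial.X ^ m : Polynomial K)) (by
      rw [Polynomial.degree_X_pow, hcard]
      exact_mod_cast Nat.lt_succ_of_le hm)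
  rw [hcard, Nat.add_sub_cancel, Polynomial.coeff_X_pow] at h
  have h' : (if p = m then (1 : K) else 0) = if m = p then 1 else 0 := by
    simp only [eq_comm]
  rw [h'] at h
  rw [h]
  refine Finset.sum_congr rfl fun x hx => ?_
  rw [Polynomial.eval_pow, Polynomial.eval_X]
  have hd : (Polynomial.derivative (WW p s)).eval x = ∏ j ∈ (RR p s).erase x, (id x - id j) := by
    rw [WW_nodal p s hs h2 h3 hsp]
    have := Lagrange.eval_nodal_derivative_eval_node_eq (s := RR p s) (v := id) hx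
    simp only [id] at this
    rw [this, Lagrange.eval_nodal]
    rfl
  rw [hd]
  rfl

/-- The weighted sum over the roots. -/
lemma sum_RR_main [DecidableEq K] (n : ℕ) (hp : p = 4 * n + 1) (s : K) (hs : s ^ 2 = 3)
    (h2 : (2 : K) ≠ 0) (h3 : (3 : K) ≠ 0) (hsp : s ^ p = -s) :
    ∑ x ∈ RR p s, (x ^ 3 + 4 * (2 * s - 3) * x) ^ (2 * n) * x
        / (Polynomial.derivative (WW p s)).eval x
      = (Nat.choose (2 * n) n : K) * (4 * (2 * s - 3)) ^ n := by
  have hpp : p.Prime := Fact.out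
  have hn : 0 < n := by
    rcases Nat.eq_zero_or_pos n with h | h
    · subst h; simp at hp; subst hp; exact absurd hpp (by norm_num)
    · exact h
  set c : K := 4 * (2 * s - 3) with hc
  have h1 : ∀ x ∈ RR p s, (x ^ 3 + c * x) ^ (2 * n) * x
        / (Polynomial.derivative (WW p s)).eval x
      = ∑ j ∈ range (2 * n + 1), (Nat.choose (2 * n) j : K) * c ^ (2 * n - j) *
          (x ^ (2 * n + 2 * j + 1) / (Polynomial.derivative (WW p s)).eval x) := by
    intro x _
    rw [add_pow, Finset.sum_mul, Finset.sum_div]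
    refine Finset.sum_congr rfl fun j hj => ?_
    rw [mem_range] at hj
    have e : 2 * n + 2 * j + 1 = 3 * j + (2 * n - j) + 1 := by omega
    rw [e, pow_add, pow_add, mul_pow, ← pow_mul]
    ring
  rw [Finset.sum_congr rfl h1, Finset.sum_comm]
  have h4 : ∀ j ∈ range (2 * n + 1), ∑ x ∈ RR p s, (Nat.choose (2 * n) j : K) * c ^ (2 * n - j) *
          (x ^ (2 * n + 2 * j + 1) / (Polynomial.derivative (WW p s)).eval x)
        = if j = n then (Nat.choose (2 * n) n : K) * c ^ n else 0 := by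
    intro j hj
    rw [mem_range] at hj
    rw [← Finset.mul_sum]
    rcases lt_trichotomy j n with hjn | hjn | hjn
    · rw [sum_RR_pow p s hs h2 h3 hsp _ (by omega), if_neg (by omega), if_neg (by omega), mul_zero]
    · subst hjn
      rw [sum_RR_pow p s hs h2 h3 hsp _ (by omega), if_pos (by omega), if_pos rfl, mul_one]
      congr 2
      omega
    · rw [if_neg (by omega)]
      have h5 : ∀ x ∈ RR p s, x ^ (2 * n + 2 * j + 1) / (Polynomial.derivative (WW p s)).eval x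
          = ((2 + s) / 2) * (x ^ (2 * j - 2 * n - 1 + 2) / (Polynomial.derivative (WW p s)).eval x)
            + 2 * s * (x ^ (2 * j - 2 * n - 1) / (Polynomial.derivative (WW p s)).eval x) := by
        intro x hx
        rw [mem_RR] at hx
        have e : 2 * n + 2 * j + 1 = (2 * j - 2 * n - 1) + (p + 1) := by omega
        rw [e, pow_add, hx, pow_add]
        ring
      rw [Finset.sum_congr rfl h5, Finset.sum_add_distrib, ← Finset.mul_sum, ← Finset.mul_sum,
        sum_RR_pow p s hs h2 h3 hsp _ (by omega), sum_RR_pow p s hs h2 h3 hsp _ (by omega),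
        if_neg (by omega), if_neg (by omega)]
      ring
  rw [Finset.sum_congr rfl h4, Finset.sum_ite_eq' (range (2 * n + 1)) n,
    if_pos (by rw [mem_range]; omega)]

end Roots

section Count

variable {K : Type*} [Field K] [IsAlgClosed K] (p : ℕ) [Fact p.Prime] [CharP K p]

/-- the good roots -/
noncomputable def GG [DecidableEq K] (n : ℕ) (s : K) : Finset K :=
  (RR p s).filter fun x => (x ^ 3 + 4 * (2 * s - 3) * x) ^ (2 * n) * x
    = (Polynomial.derivative (WW p s)).eval x * ((1 + s) / 2)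

lemma phi_fst_eq [DecidableEq K] (s x y : K) (hs : s ^ 2 = 3) (h2 : (2 : K) ≠ 0)
    (h3 : (3 : K) ≠ 0) (hsp : s ^ p = -s) (hx : x ∈ RR p s) : (phi s (x, y)).1 = x ^ p := by
  obtain ⟨hx0, _, _, _, hrel, _⟩ := RR_props p s x hs h2 h3 hsp hx
  simp only [phi]
  rw [div_eq_iff (mul_ne_zero (r2_ne_zero s hs h2) hx0), ← hrel]
  ring

lemma phi_snd_eq [DecidableEq K] (s x y : K) (hs : s ^ 2 = 3) (h2 : (2 : K) ≠ 0)
    (h3 : (3 : K) ≠ 0) (hsp : s ^ p = -s) (hx : x ∈ RR p s) :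
    (phi s (x, y)).2 * x = y * ((Polynomial.derivative (WW p s)).eval x * ((1 + s) / 2)) := by
  obtain ⟨hx0, _, _, _, hrel, hder⟩ := RR_props p s x hs h2 h3 hsp hx
  have hr3 := r3_ne_zero s hs h2
  simp only [phi]
  rw [div_mul_eq_mul_div, div_eq_iff (mul_ne_zero hr3 (pow_ne_zero _ hx0))]
  linear_combination (-(y * x)) * hder

lemma RR_sign [DecidableEq K] (n : ℕ) (hp : p = 4 * n + 1) (s x : K) (hs : s ^ 2 = 3)
    (h2 : (2 : K) ≠ 0) (h3 : (3 : K) ≠ 0) (hsp : s ^ p = -s) (hx : x ∈ RR p s) :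
    (x ^ 3 + 4 * (2 * s - 3) * x) ^ (2 * n) * x
      = (Polynomial.derivative (WW p s)).eval x * ((1 + s) / 2) ∨
    (x ^ 3 + 4 * (2 * s - 3) * x) ^ (2 * n) * x
      = -((Polynomial.derivative (WW p s)).eval x * ((1 + s) / 2)) := by
  obtain ⟨hx0, _, hv0, _, hrel, hder⟩ := RR_props p s x hs h2 h3 hsp hx
  obtain ⟨y, hy⟩ := IsAlgClosed.exists_pow_nat_eq (x ^ 3 + 4 * (2 * s - 3) * x)
    (n := 2) (by norm_num)
  have hy0 : y ≠ 0 := by
    rintro rfl
    apply hv0
    rw [← hy]; ring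
  have h1 := phi_fst_eq p s x y hs h2 h3 hsp hx
  have h4 := phi_snd_eq p s x y hs h2 h3 hsp hx
  have h5 := phi_curve s x y hs h2 hx0 hy
  rw [h1] at h5
  have e : ∀ a : K, a ^ p = frobenius K p a := fun a => rfl
  have h6 : (y ^ p) ^ 2 = (x ^ p) ^ 3 + 4 * (2 * (-s) - 3) * x ^ p := by
    have : (y ^ 2) ^ p = (x ^ 3 + 4 * (2 * s - 3) * x) ^ p := by rw [hy]
    rw [e] at hsp
    simp only [e, map_add, map_mul, map_pow, map_sub, map_ofNat, hsp] at this ⊢
    exact this
  rw [← h5] at h6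
  have h7 : y ^ p = y * (x ^ 3 + 4 * (2 * s - 3) * x) ^ (2 * n) := by
    rw [← hy, ← pow_mul, hp]; ring
  rcases sq_eq_sq_iff_eq_or_eq_neg.mp h6 with h8 | h8
  · left
    apply mul_left_cancel₀ hy0
    rw [← h4, ← h8, h7]; ring
  · right
    apply mul_left_cancel₀ hy0
    rw [mul_neg, ← h4, ← neg_mul, ← h8, h7]; ring

lemma GG_sum [DecidableEq K] (n : ℕ) (hp : p = 4 * n + 1) (s : K) (hs : s ^ 2 = 3)
    (h2 : (2 : K) ≠ 0) (h3 : (3 : K) ≠ 0) (hsp : s ^ p = -s) :
    ((1 + s) / 2) * ((2 * ((GG p n s).card : ℤ) - (p + 1) : ℤ) : K)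
      = (Nat.choose (2 * n) n : K) * (4 * (2 * s - 3)) ^ n := by
  rw [← sum_RR_main p n hp s hs h2 h3 hsp]
  have h1 : ∀ x ∈ RR p s, (x ^ 3 + 4 * (2 * s - 3) * x) ^ (2 * n) * x
        / (Polynomial.derivative (WW p s)).eval x
      = ((1 + s) / 2) * (2 * (if (x ^ 3 + 4 * (2 * s - 3) * x) ^ (2 * n) * x
    = (Polynomial.derivative (WW p s)).eval x * ((1 + s) / 2) then 1 else 0) - 1) := by
    intro x hx
    have hder0 := (RR_props p s x hs h2 h3 hsp hx).2.2.2.1
    split_ifs with h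
    · rw [h]; field_simp; ring
    · rcases RR_sign p n hp s x hs h2 h3 hsp hx with h' | h'
      · exact absurd h' h
      · rw [h']; field_simp; ring
  rw [Finset.sum_congr rfl h1, ← Finset.mul_sum, Finset.sum_sub_distrib, ← Finset.mul_sum]
  congr 1
  rw [← Finset.natCast_card_filter, Finset.sum_const, RR_card p s hs h2 h3 hsp]
  unfold GG
  push_cast
  simp

lemma OnF_iff [DecidableEq K] (n : ℕ) (hp : p = 4 * n + 1) (s x y : K) (hs : s ^ 2 = 3)
    (h2 : (2 : K) ≠ 0) (h3 : (3 : K) ≠ 0) (hsp : s ^ p = -s) :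
    OnF p s (x, y) ↔ x ∈ GG p n s ∧ y ^ 2 = x ^ 3 + 4 * (2 * s - 3) * x := by
  constructor
  · rintro ⟨hc, hx0, hphi⟩
    simp only at hc hx0 hphi
    refine ⟨?_, hc⟩
    have h1 : x ^ p = (phi s (x, y)).1 := congrArg Prod.fst hphi
    have h4 : y ^ p = (phi s (x, y)).2 := congrArg Prod.snd hphi
    have hr2 := r2_ne_zero s hs h2
    have hR : x ∈ RR p s := by
      rw [mem_RR]
      simp only [phi] at h1
      rw [eq_div_iff (mul_ne_zero hr2 hx0)] at h1
      apply mul_left_cancel₀ hr2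
      have h5 : (4 - 2 * s) * ((2 + s) / 2 * x ^ 2 + 2 * s) = x ^ 2 + 4 * (2 * s - 3) := by
        field_simp
        linear_combination (-2 * x ^ 2 - 8) * hs
      rw [h5, ← h1]; ring
    unfold GG
    rw [mem_filter]
    refine ⟨hR, ?_⟩
    have hv0 := (RR_props p s x hs h2 h3 hsp hR).2.2.1
    have hy0 : y ≠ 0 := by
      rintro rfl
      apply hv0; rw [← hc]; ring
    have h6 := phi_snd_eq p s x y hs h2 h3 hsp hR
    have h7 : y ^ p = y * (x ^ 3 + 4 * (2 * s - 3) * x) ^ (2 * n) := by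
      rw [← hc, ← pow_mul, hp]; ring
    apply mul_left_cancel₀ hy0
    rw [← h6, ← h4, h7]; ring
  · rintro ⟨hG, hc⟩
    unfold GG at hG
    rw [mem_filter] at hG
    obtain ⟨hR, hG⟩ := hG
    obtain ⟨hx0, _, hv0, _, hrel, hder⟩ := RR_props p s x hs h2 h3 hsp hR
    refine ⟨hc, hx0, ?_⟩
    have h1 := phi_fst_eq p s x y hs h2 h3 hsp hR
    have h6 := phi_snd_eq p s x y hs h2 h3 hsp hR
    have h7 : y ^ p = y * (x ^ 3 + 4 * (2 * s - 3) * x) ^ (2 * n) := by
      rw [← hc, ← pow_mul, hp]; ring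
    have h8 : y ^ p = (phi s (x, y)).2 := by
      apply mul_right_cancel₀ hx0
      rw [h6, ← hG, h7]; ring
    simp only
    rw [← h1, h8]

/-- the point set -/
lemma exists_FF [DecidableEq K] (n : ℕ) (hp : p = 4 * n + 1) (s : K) (hs : s ^ 2 = 3)
    (h2 : (2 : K) ≠ 0) (h3 : (3 : K) ≠ 0) (hsp : s ^ p = -s) :
    ∃ F : Finset (K × K), (∀ v, v ∈ F ↔ OnF p s v) ∧ F.card = 2 * (GG p n s).card := by
  have hex : ∀ a : K, ∃ z : K, z ^ 2 = a := fun a =>
    IsAlgClosed.exists_pow_nat_eq a (n := 2) (by norm_num)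
  choose q hq using hex
  let v : K → K := fun x => x ^ 3 + 4 * (2 * s - 3) * x
  refine ⟨(GG p n s).image (fun x => (x, q (v x))) ∪ (GG p n s).image (fun x => (x, -q (v x))), ?_, ?_⟩
  · rintro ⟨x, y⟩
    rw [OnF_iff p n hp s x y hs h2 h3 hsp, mem_union, mem_image, mem_image]
    constructor
    · rintro (⟨a, ha, h⟩ | ⟨a, ha, h⟩)
      · simp only [Prod.mk.injEq] at h
        obtain ⟨rfl, rfl⟩ := h
        exact ⟨ha, hq _⟩
      · simp only [Prod.mk.injEq] at h
        obtain ⟨rfl, rfl⟩ := h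
        exact ⟨ha, by rw [neg_sq]; exact hq _⟩
    · rintro ⟨hG, hy⟩
      have h1 : y ^ 2 = (q (v x)) ^ 2 := by rw [hq, hy]
      rcases sq_eq_sq_iff_eq_or_eq_neg.mp h1 with h | h
      · left; exact ⟨x, hG, by rw [h]⟩
      · right; exact ⟨x, hG, by rw [h]⟩
  · rw [Finset.card_union_of_disjoint, Finset.card_image_of_injective, Finset.card_image_of_injective]
    · ring
    · intro a b h; exact congrArg Prod.fst h
    · intro a b h; exact congrArg Prod.fst h
    · rw [Finset.disjoint_left]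
      rintro ⟨x, y⟩ hA hB
      rw [mem_image] at hA hB
      obtain ⟨a, ha, h⟩ := hA
      obtain ⟨b, hb, h'⟩ := hB
      simp only [Prod.mk.injEq] at h h'
      obtain ⟨rfl, rfl⟩ := h
      obtain ⟨rfl, h'⟩ := h'
      have hG := ha
      unfold GG at hG
      rw [mem_filter] at hG
      have hv0 := (RR_props p s b hs h2 h3 hsp hG.1).2.2.1
      have h8 : (2 : K) * q (v b) = 0 := by linear_combination -h'
      have h9 : q (v b) = 0 := (mul_eq_zero.mp h8).resolve_left h2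
      have h10 := hq (v b)
      rw [h9] at h10
      apply hv0
      show v b = 0
      rw [← h10]; ring

lemma OnF_x0 (s y : K) (hs : s ^ 2 = 3) (h2 : (2 : K) ≠ 0) (hsp : s ^ p = -s)
    (hy : y = 8 - 4 * s ∨ y = -(8 - 4 * s)) : OnF p s (4 - 2 * s, y) := by
  have hr2 := r2_ne_zero s hs h2
  have hr3 := r3_ne_zero s hs h2
  have e : ∀ a : K, a ^ p = frobenius K p a := fun a => rfl
  have hx0p : (4 - 2 * s) ^ p = 4 + 2 * s := by
    rw [e] at hsp ⊢
    simp only [map_sub, map_mul, map_ofNat, hsp]; ring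
  have hyp : y ^ p * (2 - s) = y * (2 + s) := by
    rw [e] at hsp ⊢
    rcases hy with rfl | rfl
    · simp only [map_sub, map_mul, map_ofNat, hsp]; ring
    · simp only [map_sub, map_mul, map_ofNat, map_neg, hsp]; ring
  have h2s : (2 - s : K) ≠ 0 := by
    intro h; apply hr2; linear_combination 2 * h
  refine ⟨?_, hr2, ?_⟩
  · simp only
    have : y ^ 2 = (8 - 4 * s) ^ 2 := by rcases hy with rfl | rfl <;> ring
    rw [this]
    linear_combination (-16 + 8 * s) * hs
  · simp only [phi, Prod.mk.injEq]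
    constructor
    · rw [hx0p, eq_div_iff (mul_ne_zero hr2 hr2)]
      linear_combination (-20 + 8 * s) * hs
    · rw [eq_div_iff (mul_ne_zero hr3 (pow_ne_zero _ hr2))]
      apply mul_right_cancel₀ h2s
      have : y ^ p * ((10 - 6 * s) * (4 - 2 * s) ^ 2) * (2 - s)
          = (y ^ p * (2 - s)) * ((10 - 6 * s) * (4 - 2 * s) ^ 2) := by ring
      rw [this, hyp]
      linear_combination y * (-24 * s ^ 2 + 92 * s - 88) * hs

lemma two_GG_dvd [DecidableEq K] (n : ℕ) (hp : p = 4 * n + 1) (s : K) (hs : s ^ 2 = 3)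
    (h2 : (2 : K) ≠ 0) (h3 : (3 : K) ≠ 0) (hsp : s ^ p = -s) :
    (3 : ℤ) ∣ 2 * ((GG p n s).card : ℤ) - 2 := by
  obtain ⟨F, hF, hFc⟩ := exists_FF p n hp s hs h2 h3 hsp
  let F' := F.filter fun v => v.1 ≠ 4 - 2 * s
  let T := F'.image (toT s)
  have hmF' : ∀ v, v ∈ F' ↔ OnF p s v ∧ v.1 ≠ 4 - 2 * s := by
    intro v
    simp only [F', mem_filter, hF]
  have hTc : T.card = F'.card := by
    apply Finset.card_image_of_injOn
    rintro ⟨x, y⟩ hv ⟨x', y'⟩ hv' h
    have h1 := (hmF' _).mp (Finset.mem_coe.mp hv)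
    have h1' := (hmF' _).mp (Finset.mem_coe.mp hv')
    rw [← ofT_toT s x y h1.2 hs h2 h1.1.1, ← ofT_toT s x' y' h1'.2 hs h2 h1'.1.1, h]
  have hmT : ∀ a b c, (a, b, c) ∈ T ↔ OnT p s (a, b, c) := by
    intro a b c
    constructor
    · intro h
      rw [mem_image] at h
      obtain ⟨⟨x, y⟩, hv, hxy⟩ := h
      have h1 := (hmF' _).mp hv
      rw [← hxy]
      exact F_to_T p s x y hs h2 hsp h1.1 h1.2
    · intro h
      rw [mem_image]
      obtain ⟨h1, h4⟩ := T_to_F p s a b c hs h2 h3 hsp h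
      exact ⟨ofT s (a, b, c), (hmF' _).mpr ⟨h1, h4⟩, (ofT_curve s a b c hs h2 h.1 h.2.1).2.2⟩
  have hT3 : 3 ∣ T.card := by
    apply three_dvd_card_of_cyclic
    · intro a b c h
      rw [hmT] at h ⊢
      exact OnT_cyc p s a b c h
    · intro a h
      rw [hmT] at h
      exact no_const s a hs h2 h3 h.1 h.2.1
  have hF'c : F'.card + 2 = F.card := by
    have h1 := Finset.card_filter_add_card_filter_not (s := F) (fun v => v.1 ≠ 4 - 2 * s)
    have h5 : (F.filter fun v => ¬ (v.1 ≠ 4 - 2 * s))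
        = {(4 - 2 * s, 8 - 4 * s), (4 - 2 * s, -(8 - 4 * s))} := by
      ext ⟨x, y⟩
      simp only [mem_filter, hF, ne_eq, not_not, mem_insert, mem_singleton, Prod.mk.injEq]
      constructor
      · rintro ⟨h, rfl⟩
        have hc := h.1
        simp only at hc
        have hy : y ^ 2 = (8 - 4 * s) ^ 2 := by
          rw [hc]
          linear_combination (16 - 8 * s) * hs
        rcases sq_eq_sq_iff_eq_or_eq_neg.mp hy with h' | h'
        · left; exact ⟨rfl, h'⟩
        · right; exact ⟨rfl, h'⟩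
      · rintro (⟨rfl, h⟩ | ⟨rfl, h⟩)
        · exact ⟨OnF_x0 p s y hs h2 hsp (Or.inl h), rfl⟩
        · exact ⟨OnF_x0 p s y hs h2 hsp (Or.inr h), rfl⟩
    have h6 : ({(4 - 2 * s, 8 - 4 * s), (4 - 2 * s, -(8 - 4 * s))} : Finset (K × K)).card = 2 := by
      apply Finset.card_pair
      intro h
      simp only [Prod.mk.injEq, true_and] at h
      have h7 : (4 : K) * (4 - 2 * s) = 0 := by linear_combination h
      have h4 : (4 : K) ≠ 0 := by
        rw [show (4 : K) = 2 ^ 2 by norm_num]; exact pow_ne_zero _ h2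
      exact (mul_ne_zero h4 (r2_ne_zero s hs h2)) h7
    rw [h5, h6] at h1
    exact h1
  rw [hTc] at hT3
  have h9 : 2 * ((GG p n s).card : ℤ) - 2 = (F'.card : ℤ) := by
    have : (F'.card : ℤ) + 2 = (F.card : ℤ) := by exact_mod_cast hF'c
    rw [hFc] at this
    push_cast at this
    linarith
  rw [h9]
  exact_mod_cast hT3

end Count

section Final

variable {p : ℕ} [Fact p.Prime]

/-- Uniqueness of the representation of a prime as a sum of two squares. -/
lemma two_squares_unique (A B x z : ℤ) (h1 : A ^ 2 + B ^ 2 = p) (h2 : x ^ 2 + z ^ 2 = p) :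
    A ^ 2 = x ^ 2 ∨ A ^ 2 = z ^ 2 := by
  have hpp : p.Prime := Fact.out
  have hpi : Prime (p : ℤ) := Nat.prime_iff_prime_int.mp hpp
  have hp0 : (0 : ℤ) < p := by exact_mod_cast hpp.pos
  have hdvd : (p : ℤ) ∣ (A * x - B * z) * (A * x + B * z) := by
    refine ⟨A ^ 2 - z ^ 2, ?_⟩
    have hx : x ^ 2 = p - z ^ 2 := by linarith
    have hB : B ^ 2 = p - A ^ 2 := by linarith
    linear_combination A ^ 2 * hx - z ^ 2 * hB
  -- a common treatment of both signs
  have main : ∀ b : ℤ, A ^ 2 + b ^ 2 = p → (p : ℤ) ∣ A * x - b * z → A ^ 2 = x ^ 2 ∨ A ^ 2 = z ^ 2 := by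
    intro b hb hd
    obtain ⟨c, hc⟩ := hd
    have hid : (A * x - b * z) ^ 2 + (A * z + b * x) ^ 2 = (p : ℤ) ^ 2 := by
      have : (A ^ 2 + b ^ 2) * (x ^ 2 + z ^ 2) = (p : ℤ) ^ 2 := by rw [hb, h2]; ring
      linear_combination this
    rw [hc] at hid
    have hc2 : c ^ 2 ≤ 1 := by
      by_contra hcon
      have h4 : 2 ≤ c ^ 2 := by omega
      have h5 : (p : ℤ) ^ 2 * 2 ≤ (p : ℤ) ^ 2 * c ^ 2 := mul_le_mul_of_nonneg_left h4 (sq_nonneg _)
      nlinarith [sq_nonneg (A * z + b * x)]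
    have hc3 : c = 0 ∨ c ^ 2 = 1 := by
      by_cases hc0 : c = 0
      · exact Or.inl hc0
      · right
        have : 0 < c ^ 2 := by positivity
        omega
    rcases hc3 with hc0 | hc1
    · -- A x = b z
      right
      rw [hc0, mul_zero] at hc
      have h6 : (p : ℤ) * (A ^ 2 - z ^ 2) = 0 := by
        have e1 : A * x = b * z := by linarith
        have e2 : (A * x) ^ 2 = (b * z) ^ 2 := by rw [e1]
        linear_combination e2 + (-A ^ 2) * h2 + z ^ 2 * hb
      rcases mul_eq_zero.mp h6 with h7 | h7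
      · exact absurd h7 hp0.ne'
      · linarith
    · left
      have h6 : A * z + b * x = 0 := by
        have : (A * z + b * x) ^ 2 = 0 := by
          have h8 : ((p : ℤ) * c) ^ 2 = (p : ℤ) ^ 2 := by rw [mul_pow, hc1, mul_one]
          linarith
        exact pow_eq_zero_iff (by norm_num) |>.mp this
      have e2 : (A * z) ^ 2 = (b * x) ^ 2 := by
        have : A * z = -(b * x) := by linarith
        rw [this]; ring
      have h7 : (p : ℤ) * (A ^ 2 - x ^ 2) = 0 := by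
        linear_combination e2 + (-A ^ 2) * h2 + x ^ 2 * hb
      rcases mul_eq_zero.mp h7 with h8 | h8
      · exact absurd h8 hp0.ne'
      · linarith
  rcases hpi.dvd_or_dvd hdvd with h | h
  · exact main B h1 h
  · refine main (-B) (by rw [← h1]; ring) ?_
    have : A * x - -B * z = A * x + B * z := by ring
    rw [this]; exact h

lemma neg_four_pow (n : ℕ) (hp : p = 4 * n + 1) : (-4 : ZMod p) ^ n = 1 := by
  have hpp : p.Prime := Fact.out
  have hp4 : p % 4 = 1 := by omega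
  have hp1 : p ≠ 1 := hpp.one_lt.ne'
  obtain ⟨i, hi⟩ : IsSquare (-1 : ZMod p) := ZMod.exists_sq_eq_neg_one_iff.mpr (by omega)
  have h2 : (2 : ZMod p) ≠ 0 := by
    have : ((2 : ℕ) : ZMod p) ≠ 0 := by
      intro h
      rw [ZMod.natCast_eq_zero_iff] at h
      exact absurd (Nat.le_of_dvd (by norm_num) h) (by omega)
    exact_mod_cast this
  have hne : (1 + i : ZMod p) ≠ 0 := by
    intro h
    apply h2
    linear_combination (1 - i) * h + (-1 : ZMod p) * hi
  have h4 : (-4 : ZMod p) = (1 + i) ^ 4 := by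
    linear_combination (i * i + 4 * i + 5) * hi
  rw [h4, ← pow_mul]
  have : 4 * n = p - 1 := by omega
  rw [this]
  exact ZMod.pow_card_sub_one_eq_one hne

lemma four_pow (n : ℕ) (hp : p = 4 * n + 1) : (4 : ZMod p) ^ n = (-1) ^ n := by
  have h := neg_four_pow n hp
  have e : (-4 : ZMod p) = (-1) * 4 := by ring
  rw [e, mul_pow] at h
  have h1 : ((-1 : ZMod p) ^ n) * (-1) ^ n = 1 := by rw [← mul_pow]; simp
  calc (4 : ZMod p) ^ n = (((-1) ^ n) * (-1) ^ n) * 4 ^ n := by rw [h1, one_mul]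
    _ = (-1) ^ n * ((-1) ^ n * 4 ^ n) := by ring
    _ = (-1) ^ n := by rw [h, mul_one]

lemma exists_sqrt_three (hp : p % 12 = 1) : ∃ s : ZMod p, s ^ 2 = 3 := by
  have : Fact (Nat.Prime 3) := ⟨by norm_num⟩
  have h := (ZMod.exists_sq_eq_prime_iff_of_mod_four_eq_one (p := p) (q := 3) (by omega) (by norm_num)).mpr
  have h3 : IsSquare ((p : ℕ) : ZMod 3) := by
    have : ((p : ℕ) : ZMod 3) = 1 := by
      have : ((p : ℕ) : ZMod 3) = ((p % 3 : ℕ) : ZMod 3) := by simp
      rw [this]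
      have : p % 3 = 1 := by omega
      rw [this]; simp
    rw [this]; exact ⟨1, by simp⟩
  obtain ⟨s, hs⟩ := h h3
  exact ⟨s, by rw [sq, ← hs]; simp⟩

theorem caseA_core (f : ℕ) (hp : p = 12 * f + 1) :
    ∃ A B : ℤ, A ^ 2 + 9 * B ^ 2 = p ∧ A % 3 = 1 ∧
      ((((-1) ^ f * (Nat.choose (4 * f) f : ℤ) : ℤ)) : ZMod p) = ((2 * A : ℤ) : ZMod p) := by
  have hpp : p.Prime := Fact.out
  have hp3 : 3 < p := by
    rcases Nat.eq_zero_or_pos f with h | h
    · subst h; simp at hp; subst hp; exact absurd hpp (by norm_num)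
    · omega
  obtain ⟨s, hs⟩ := exists_sqrt_three (p := p) (by omega)
  have hdvd := caseA_mod3 hp3 s hs
  have hk : (4 * (2 * s - 3) : ZMod p) ≠ 0 := by
    intro h
    have h3 : ((12 : ℕ) : ZMod p) = 0 := by
      push_cast
      linear_combination (2 * s + 3) * h - 16 * hs
    rw [ZMod.natCast_eq_zero_iff] at h3
    have := Nat.le_of_dvd (by norm_num) h3
    omega
  obtain ⟨A, B, hA, hAB⟩ := jacobsthal (p := p) (by omega) _ hk
  rw [hA] at hdvd
  have hA3 : A % 3 = 2 := by omega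
  have hmod := jS_mod (p := p) (3 * f) (by omega) (4 * (2 * s - 3))
  have hI := identityA (K := ZMod p) p f hp s hs
  have e1 : 2 * (3 * f) = 6 * f := by ring
  rw [e1, mul_pow, four_pow (3 * f) (by omega)] at hmod
  have hval : ((jS (4 * (2 * s - 3)) : ℤ) : ZMod p) = -((-1) ^ f * (Nat.choose (4 * f) f : ZMod p)) := by
    rw [hmod, ← hI]
    have : (-1 : ZMod p) ^ (3 * f) = (-1) ^ f := by rw [pow_mul]; norm_num
    rw [this]; ring
  rw [hA] at hval
  have hB3 : (3 : ℤ) ∣ B := by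
    have h1 : (A ^ 2 + B ^ 2) % 3 = 1 := by rw [hAB]; omega
    have hA' : A ^ 2 % 3 = 1 := by
      rw [sq, Int.mul_emod, hA3]; norm_num
    have hB' : B ^ 2 % 3 = 0 := by omega
    have : (3 : ℤ) ∣ B ^ 2 := Int.dvd_of_emod_eq_zero hB'
    exact Int.prime_three.dvd_of_dvd_pow this
  obtain ⟨B', rfl⟩ := hB3
  refine ⟨-A, B', by rw [← hAB]; ring, by omega, ?_⟩
  push_cast at hval ⊢
  linear_combination hval

lemma two_p_unique (A Z x z : ℤ) (h1 : A ^ 2 + Z ^ 2 = 2 * p) (h2 : x ^ 2 + z ^ 2 = 2 * p) :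
    A ^ 2 = x ^ 2 ∨ A ^ 2 = z ^ 2 := by
  have par : ∀ u v : ℤ, u ^ 2 + v ^ 2 = 2 * p → ∃ a b : ℤ, u = a + b ∧ v = a - b := by
    intro u v h
    have h3 : (u + v) % 2 = 0 := by
      rcases Int.emod_two_eq_zero_or_one u with hu | hu <;>
      rcases Int.emod_two_eq_zero_or_one v with hv | hv
      · omega
      · exfalso
        obtain ⟨u', rfl⟩ : ∃ a, u = 2 * a := ⟨u / 2, by omega⟩
        obtain ⟨v', rfl⟩ : ∃ a, v = 2 * a + 1 := ⟨v / 2, by omega⟩
        ring_nf at h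
        omega
      · exfalso
        obtain ⟨u', rfl⟩ : ∃ a, u = 2 * a + 1 := ⟨u / 2, by omega⟩
        obtain ⟨v', rfl⟩ : ∃ a, v = 2 * a := ⟨v / 2, by omega⟩
        ring_nf at h
        omega
      · omega
    exact ⟨(u + v) / 2, (u - v) / 2, by omega, by omega⟩
  obtain ⟨a, b, rfl, rfl⟩ := par A Z h1
  obtain ⟨c, d, rfl, rfl⟩ := par x z h2
  have h3 : a ^ 2 + b ^ 2 = p := by linarith [h1, (by ring : (a + b) ^ 2 + (a - b) ^ 2 = 2 * (a ^ 2 + b ^ 2))]
  have h4 : c ^ 2 + d ^ 2 = p := by linarith [h2, (by ring : (c + d) ^ 2 + (c - d) ^ 2 = 2 * (c ^ 2 + d ^ 2))]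
  have h5 : (a * b) ^ 2 = (c * d) ^ 2 := by
    rcases two_squares_unique a b c d h3 h4 with h | h
    · have hb : b ^ 2 = d ^ 2 := by linarith
      rw [mul_pow, mul_pow, h, hb]
    · have hb : b ^ 2 = c ^ 2 := by linarith
      rw [mul_pow, mul_pow, h, hb, mul_comm]
  rcases sq_eq_sq_iff_eq_or_eq_neg.mp h5 with h | h
  · left
    linear_combination h3 - h4 + 2 * h
  · right
    linear_combination h3 - h4 + 2 * h

lemma not_sq_two : ¬ IsSquare (2 : ZMod 3) := by decide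

lemma exists_s (hp : p % 12 = 5) (K : Type*) [Field K] [IsAlgClosed K] [Algebra (ZMod p) K] :
    ∃ s : K, s ^ 2 = 3 ∧ s ^ p = -s := by
  obtain ⟨s, hs⟩ := IsAlgClosed.exists_pow_nat_eq (3 : K) (n := 2) (by norm_num)
  refine ⟨s, hs, ?_⟩
  have hpp : p.Prime := Fact.out
  have : Fact (Nat.Prime 3) := ⟨by norm_num⟩
  have hns : ¬ IsSquare ((3 : ℕ) : ZMod p) := by
    rw [ZMod.exists_sq_eq_prime_iff_of_mod_four_eq_one (p := p) (q := 3) (by omega) (by norm_num)]
    have h1 : ((p : ℕ) : ZMod 3) = 2 := by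
      have : ((p : ℕ) : ZMod 3) = ((p % 3 : ℕ) : ZMod 3) := by simp
      rw [this]
      have : p % 3 = 2 := by omega
      rw [this]; rfl
    rw [h1]
    exact not_sq_two
  have h3 : ((3 : ℕ) : ZMod p) ≠ 0 := by
    intro h
    rw [ZMod.natCast_eq_zero_iff] at h
    have := Nat.le_of_dvd (by norm_num) h
    omega
  have h4 : ((3 : ℕ) : ZMod p) ^ (p / 2) = -1 := by
    rcases ZMod.pow_div_two_eq_neg_one_or_one p h3 with h | h
    · exact absurd ((ZMod.euler_criterion p h3).mpr h) hns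
    · exact h
  have h5 : (3 : K) ^ (p / 2) = -1 := by
    have := congrArg (algebraMap (ZMod p) K) h4
    simpa only [map_pow, map_natCast, map_neg, map_one, Nat.cast_ofNat, map_ofNat] using this
  have h6 : p = 2 * (p / 2) + 1 := by omega
  calc s ^ p = (s ^ 2) ^ (p / 2) * s := by
        conv_lhs => rw [h6]
        rw [pow_succ, pow_mul]
    _ = -s := by rw [hs, h5]; ring

theorem caseB_aux (K : Type*) [Field K] [IsAlgClosed K] [Algebra (ZMod p) K] [CharP K p]
    (f : ℕ) (hf : 0 < f) (hp : p = 12 * f + 5) :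
    ∃ A B : ℤ, A ^ 2 + 9 * B ^ 2 = 2 * p ∧ A % 3 = 1 ∧
      ((((-1) ^ f * (Nat.choose (4 * f + 1) f : ℤ) : ℤ)) : ZMod p) = ((A : ℤ) : ZMod p) := by
  classical
  have hpp : p.Prime := Fact.out
  obtain ⟨s, hs, hsp⟩ := exists_s (p := p) (by omega) K
  have hcast : ∀ q : ℕ, 0 < q → q < p → (q : K) ≠ 0 := by
    intro q hq0 hq h
    rw [CharP.cast_eq_zero_iff K p] at h
    exact absurd (Nat.le_of_dvd hq0 h) (by omega)
  have h2 : (2 : K) ≠ 0 := by exact_mod_cast hcast 2 (by norm_num) (by omega)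
  have h3 : (3 : K) ≠ 0 := by exact_mod_cast hcast 3 (by norm_num) (by omega)
  set n := 3 * f + 1 with hn
  have hpn : p = 4 * n + 1 := by omega
  have hsum := GG_sum p n hpn s hs h2 h3 hsp
  have hdvd := two_GG_dvd p n hpn s hs h2 h3 hsp
  have hGle : (GG p n s).card ≤ p + 1 := by
    rw [← RR_card p s hs h2 h3 hsp]
    exact Finset.card_le_card (Finset.filter_subset _ _)
  obtain ⟨g, hg⟩ : ∃ g : ℕ, (GG p n s).card = g := ⟨_, rfl⟩
  rw [hg] at hsum hdvd hGle
  have hB := identityB (K := K) p f hp s hs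
  have e1 : 2 * n = 6 * f + 2 := by omega
  have h4n : (4 : K) ^ n = (-1) ^ n := by
    have := congrArg (algebraMap (ZMod p) K) (four_pow (p := p) n hpn)
    simpa only [map_pow, map_ofNat, map_neg, map_one] using this
  -- define h
  obtain ⟨h, hh⟩ : ∃ h : ℤ, h = (g : ℤ) - (6 * f + 3) := ⟨_, rfl⟩
  have hS : (2 * (g : ℤ) - (p + 1) : ℤ) = 2 * h := by rw [hh, hp]; push_cast; ring
  rw [hS] at hsum
  have h1s : (1 + s : K) ≠ 0 := by
    intro h'
    apply h2
    linear_combination (s - 1) * h' - hs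
  have hm3 : h % 3 = 1 := by
    have : (3 : ℤ) ∣ 2 * h + 12 * f + 4 := by
      have e : 2 * h + 12 * f + 4 = 2 * (g : ℤ) - 2 := by rw [hh]; ring
      rw [e]; exact hdvd
    omega
  have hmod1 : ((h : ℤ) : K) = (-1) ^ f * (Nat.choose (4 * f + 1) f : K) := by
    rw [mul_pow, h4n, e1] at hsum
    have hn1 : (-1 : K) ^ n = -(-1) ^ f := by
      rw [hn, pow_succ, pow_mul]
      have : ((-1 : K) ^ 3) = -1 := by norm_num
      rw [this]; ring
    rw [hn1] at hsum
    apply mul_left_cancel₀ h1s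
    push_cast at hsum
    have h7 : (1 + s) / 2 * (2 * (h : K)) = (1 + s) * (h : K) := by field_simp
    rw [h7] at hsum
    rw [hsum]
    linear_combination (-(-1) ^ f) * hB
  have hmodp : ((h : ℤ) : ZMod p) = (-1) ^ f * (Nat.choose (4 * f + 1) f : ZMod p) := by
    apply (algebraMap (ZMod p) K).injective
    simpa using hmod1
  obtain ⟨A, B, hA, hAB⟩ := jacobsthal (p := p) (by omega) 1 one_ne_zero
  have hA2 := jS_mod (p := p) n hpn 1
  rw [hA, one_pow, mul_one] at hA2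
  have hA3 : (2 * A : K) = - (Nat.choose (2 * n) n : K) := by
    have := congrArg (algebraMap (ZMod p) K) hA2
    simpa only [map_intCast, map_neg, map_natCast, Int.cast_mul, Int.cast_ofNat, map_mul, map_ofNat] using this
  have hc0 : (4 * (2 * s - 3) : K) ≠ 0 := by
    intro h'
    have h12 : (2 : K) ^ 2 * 3 = 0 := by
      linear_combination (2 * s + 3) * h' - 16 * hs
    rcases mul_eq_zero.mp h12 with h'' | h''
    · exact h2 (pow_eq_zero_iff (by norm_num) |>.mp h'')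
    · exact h3 h''
  have hh4 : ((h : ℤ) : K) ^ 4 = -4 * (A : K) ^ 4 := by
    have h5 : (1 + s) / 2 * (h : K) = -(A : K) * (4 * (2 * s - 3)) ^ n := by
      apply mul_left_cancel₀ h2
      push_cast at hsum
      linear_combination hsum + (4 * (2 * s - 3)) ^ n * hA3
    have h6 : ((4 * (2 * s - 3) : K) ^ n) ^ 4 = -4 * ((1 + s) / 2) ^ 4 := by
      apply mul_right_cancel₀ hc0
      rw [← pow_mul, ← pow_succ]
      have e : ∀ a : K, a ^ p = frobenius K p a := fun a => rfl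
      have e2 : n * 4 + 1 = p := by omega
      rw [e2, e]
      rw [e] at hsp
      simp only [map_mul, map_sub, map_ofNat, hsp]
      field_simp
      linear_combination (32 * s ^ 3 + 80 * s ^ 2 + 96 * s + 80) * hs
    have h8 : ((1 + s) / 2 : K) ^ 4 ≠ 0 := pow_ne_zero _ (div_ne_zero h1s h2)
    apply mul_left_cancel₀ h8
    calc ((1 + s) / 2 : K) ^ 4 * (h : K) ^ 4 = ((1 + s) / 2 * (h : K)) ^ 4 := by ring
      _ = (A : K) ^ 4 * ((4 * (2 * s - 3) : K) ^ n) ^ 4 := by rw [h5]; ring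
      _ = ((1 + s) / 2) ^ 4 * (-4 * (A : K) ^ 4) := by rw [h6]; ring
  have hdvd4 : (p : ℤ) ∣ ((h + A) ^ 2 + A ^ 2) * ((h - A) ^ 2 + A ^ 2) := by
    rw [← CharP.intCast_eq_zero_iff K p]
    push_cast
    linear_combination hh4
  have hpi : Prime (p : ℤ) := Nat.prime_iff_prime_int.mp hpp
  -- signs
  have hkey : ∃ a b : ℤ, a ^ 2 + b ^ 2 = p ∧ (p : ℤ) ∣ h - (a + b) := by
    have aux : ∀ a : ℤ, a ^ 2 = A ^ 2 → (p : ℤ) ∣ (h - a) ^ 2 + A ^ 2 →
        ∃ a b : ℤ, a ^ 2 + b ^ 2 = p ∧ (p : ℤ) ∣ h - (a + b) := by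
      intro a ha hd
      have hd2 : (p : ℤ) ∣ (h - (a + B)) * (h - (a + -B)) := by
        have e : (h - (a + B)) * (h - (a + -B)) = ((h - a) ^ 2 + A ^ 2) - (A ^ 2 + B ^ 2) := by ring
        rw [e, hAB]
        exact dvd_sub hd (dvd_refl _)
      rcases hpi.dvd_or_dvd hd2 with h' | h'
      · exact ⟨a, B, by rw [ha, hAB], h'⟩
      · exact ⟨a, -B, by rw [ha, neg_sq, hAB], h'⟩
    rcases hpi.dvd_or_dvd hdvd4 with h' | h'
    · exact aux (-A) (by ring) (by rw [sub_neg_eq_add]; exact h')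
    · exact aux A rfl h'
  obtain ⟨a, b, hab, hdab⟩ := hkey
  have hle1 : |h| ≤ 6 * f + 3 := by
    rw [abs_le]
    constructor
    · rw [hh]
      have : (0 : ℤ) ≤ g := by positivity
      linarith
    · rw [hh]
      have : (g : ℤ) ≤ p + 1 := by exact_mod_cast hGle
      rw [hp] at this
      push_cast at this
      linarith
  have hf1 : (1 : ℤ) ≤ f := by exact_mod_cast hf
  have hpz : (p : ℤ) = 12 * f + 5 := by rw [hp]; push_cast; ring
  have hle2 : |a + b| ≤ 6 * f + 1 := by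
    by_contra hcon
    push Not at hcon
    have h7 : (6 * f + 2 : ℤ) ≤ |a + b| := by omega
    have h8 : (6 * f + 2 : ℤ) ^ 2 ≤ (a + b) ^ 2 := by
      rw [← sq_abs (a + b)]
      exact pow_le_pow_left₀ (by positivity) h7 2
    have h9 : (a + b) ^ 2 ≤ 2 * p := by nlinarith [sq_nonneg (a - b)]
    nlinarith
  have heq : h = a + b := by
    have h7 : |h - (a + b)| < p := by
      calc |h - (a + b)| ≤ |h| + |a + b| := abs_sub _ _
        _ ≤ (6 * f + 3) + (6 * f + 1) := add_le_add hle1 hle2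
        _ < p := by rw [hpz]; linarith
    have h8 := Int.eq_zero_of_abs_lt_dvd hdab h7
    linarith
  have h3d : (3 : ℤ) ∣ a - b := by
    have h7 : (a - b) ^ 2 = 2 * p - h ^ 2 := by rw [heq, ← hab]; ring
    have h8 : h ^ 2 % 3 = 1 := by rw [sq, Int.mul_emod, hm3]; norm_num
    have h9 : (3 : ℤ) ∣ (a - b) ^ 2 := by
      rw [h7, hpz]
      omega
    exact Int.prime_three.dvd_of_dvd_pow h9
  obtain ⟨c, hc⟩ := h3d
  refine ⟨h, c, ?_, hm3, ?_⟩
  · have : 9 * c ^ 2 = (a - b) ^ 2 := by rw [hc]; ring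
    rw [this, heq, ← hab]; ring
  · rw [hmodp]; push_cast; ring

theorem caseB_core (f : ℕ) (hp : p = 12 * f + 5) :
    ∃ A B : ℤ, A ^ 2 + 9 * B ^ 2 = 2 * p ∧ A % 3 = 1 ∧
      ((((-1) ^ f * (Nat.choose (4 * f + 1) f : ℤ) : ℤ)) : ZMod p) = ((A : ℤ) : ZMod p) := by
  rcases Nat.eq_zero_or_pos f with hf | hf
  · subst hf
    refine ⟨1, 1, by rw [hp]; norm_num, by norm_num, by simp⟩
  · exact caseB_aux (AlgebraicClosure (ZMod p)) f hf hp

end Final

theorem result (p : ℕ) (hp : p.Prime) (hp4 : p % 4 = 1) :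
    (p % 12 = 1 ∧
      (∃ x y : ℤ, (p : ℤ) = x ^ 2 + 9 * y ^ 2 ∧ x % 3 = 1) ∧
      ∀ x y : ℤ, (p : ℤ) = x ^ 2 + 9 * y ^ 2 → x % 3 = 1 →
        (-1) ^ (p / 12) * (Nat.choose (p / 3) (p / 12) : ℤ) ≡ 2 * x [ZMOD p]) ∨
    (p % 12 = 5 ∧
      (∃ x y : ℤ, 2 * (p : ℤ) = x ^ 2 + 9 * y ^ 2 ∧ x % 3 = 1) ∧
      ∀ x y : ℤ, 2 * (p : ℤ) = x ^ 2 + 9 * y ^ 2 → x % 3 = 1 →
        (-1) ^ (p / 12) * (Nat.choose (p / 3) (p / 12) : ℤ) ≡ x [ZMOD p]) := by
  have hfact : Fact p.Prime := ⟨hp⟩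
  have h12 : p % 12 = 1 ∨ p % 12 = 5 := by
    have h9 : p % 12 ≠ 9 := by
      intro h9
      have h3 : 3 ∣ p := by omega
      have := (Nat.prime_dvd_prime_iff_eq Nat.prime_three hp).mp h3
      omega
    omega
  rcases h12 with h12 | h12
  · left
    obtain ⟨f, hf⟩ : ∃ f, p = 12 * f + 1 := ⟨p / 12, by omega⟩
    have e1 : p / 12 = f := by omega
    have e2 : p / 3 = 4 * f := by omega
    obtain ⟨A, B, hAB, hA3, hA⟩ := caseA_core (p := p) f hf
    refine ⟨h12, ⟨A, B, by linarith, hA3⟩, ?_⟩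
    intro x y hxy hx3
    rw [e1, e2, ← ZMod.intCast_eq_intCast_iff, hA]
    have hu := two_squares_unique (p := p) A (3 * B) x (3 * y) (by rw [← hAB]; ring)
      (by rw [hxy]; ring)
    have hAx : A ^ 2 = x ^ 2 := by
      rcases hu with h | h
      · exact h
      · exfalso
        have h3 : (3 : ℤ) ∣ A ^ 2 := by rw [h]; exact ⟨3 * y ^ 2, by ring⟩
        have h4 := Int.prime_three.dvd_of_dvd_pow h3
        omega
    have : A = x := by
      rcases sq_eq_sq_iff_eq_or_eq_neg.mp hAx with h | h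
      · exact h
      · exfalso; omega
    rw [this]
  · right
    obtain ⟨f, hf⟩ : ∃ f, p = 12 * f + 5 := ⟨p / 12, by omega⟩
    have e1 : p / 12 = f := by omega
    have e2 : p / 3 = 4 * f + 1 := by omega
    obtain ⟨A, B, hAB, hA3, hA⟩ := caseB_core (p := p) f hf
    refine ⟨h12, ⟨A, B, by linarith, hA3⟩, ?_⟩
    intro x y hxy hx3
    rw [e1, e2, ← ZMod.intCast_eq_intCast_iff, hA]
    have hu := two_p_unique (p := p) A (3 * B) x (3 * y) (by rw [← hAB]; ring)
      (by rw [hxy]; ring)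
    have hAx : A ^ 2 = x ^ 2 := by
      rcases hu with h | h
      · exact h
      · exfalso
        have h3 : (3 : ℤ) ∣ A ^ 2 := by rw [h]; exact ⟨3 * y ^ 2, by ring⟩
        have h4 := Int.prime_three.dvd_of_dvd_pow h3
        omega
    have : A = x := by
      rcases sq_eq_sq_iff_eq_or_eq_neg.mp hAx with h | h
      · exact h
      · exfalso; omega
    rw [this]

end Pool.Agent.Results.MP_d8c653_nt.BinomialForms
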